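import Pool.Agent.H88.VH.Stm

/-!
# Products of Grassmannians: the numbers `rk`; the map `(M, M', x) -> (M', x)` is well defined
-/

set_option autoImplicit false

open MvPolynomial Pool.Agent.Y129.TA Pool.Agent.Y129.TB Pool.Agent.H88.VL
open Pool.Agent.H88.VG (GSet Mor incl down locus zeros value MultiHom inter Approximable Theory Rp)

universe u v

namespace Pool.Agent.H88.VH.B0

theorem rk_succ_self {k m : ℕ} (β : Fin k → Fin m) (p : Fin k) :
    rk β (p + 1) (β p) = rk β p (β p) + 1 := by
  unfold rk
  have h1 : (Finset.univ.filter fun q : Fin k => q.val < p.val + 1 ∧ β q = β p)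
      = insert p (Finset.univ.filter fun q : Fin k => q.val < p.val ∧ β q = β p) := by
    ext q
    simp only [Finset.mem_filter, Finset.mem_univ, true_and, Finset.mem_insert]
    constructor
    · rintro ⟨h1, h2⟩
      by_cases h : q = p
      · exact Or.inl h
      · have h3 : q.val ≠ p.val := fun h4 => h (Fin.ext h4)
        exact Or.inr ⟨by omega, h2⟩
    · rintro (h | ⟨h1, h2⟩)
      · subst h
        exact ⟨by omega, rfl⟩
      · exact ⟨by omega, h2⟩
  rw [h1, Finset.card_insert_of_notMem]
  simp

theorem rk_succ_ne {k m : ℕ} (β : Fin k → Fin m) (p : Fin k) (i : Fin m) (hi : i ≠ β p) :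
    rk β (p + 1) i = rk β p i := by
  unfold rk
  congr 1
  ext q
  simp only [Finset.mem_filter, Finset.mem_univ, true_and]
  constructor
  · rintro ⟨h1, h2⟩
    have h3 : q.val ≠ p.val := by
      intro h4
      have h5 : q = p := Fin.ext h4
      subst h5
      exact hi h2.symm
    exact ⟨by omega, h2⟩
  · rintro ⟨h1, h2⟩
    exact ⟨by omega, h2⟩

theorem rk_zero {k m : ℕ} (β : Fin k → Fin m) (i : Fin m) : rk β 0 i = 0 := by
  unfold rk
  simp

theorem rk_top {k m : ℕ} (β : Fin k → Fin m) (i : Fin m) : rk β k i = size β i := by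
  unfold rk size
  congr 1
  ext q
  simp

theorem sum_size {k m : ℕ} (β : Fin k → Fin m) : ∑ i, size β i = k := by
  unfold size
  rw [← Finset.card_eq_sum_card_fiberwise (fun x _ => Finset.mem_coe.2 (Finset.mem_univ (β x)))]
  simp

theorem main_a : S_B0 := fun _ _ β =>
  ⟨rk_succ_self β, rk_succ_ne β, rk_zero β, rk_top β, sum_size β⟩

theorem strk_inl {k m : ℕ} (β : Fin k → Fin m) (s : ℕ) (i : Fin m) :
    strk β s (Sum.inl i) = rk β s i := rfl

theorem strk_inr {k m : ℕ} (β : Fin k → Fin m) (s : ℕ) (l : Fin k) :
    strk β s (Sum.inr l) = if l.val < s then 0 else 1 := rfl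

theorem fa_self {k m : ℕ} (β : Fin k → Fin m) (p : Fin k) :
    fa β p (Sum.inl (β p)) = some none := by simp [fa]

theorem fa_inl {k m : ℕ} (β : Fin k → Fin m) (p : Fin k) (i : Fin m) (hi : i ≠ β p) :
    fa β p (Sum.inl i) = some (some (Sum.inl i)) := by simp [fa, hi]

theorem fa_p {k m : ℕ} (β : Fin k → Fin m) (p : Fin k) :
    fa β p (Sum.inr p) = none := by simp [fa]

theorem fa_inr {k m : ℕ} (β : Fin k → Fin m) (p l : Fin k) (hl : l ≠ p) :
    fa β p (Sum.inr l) = some (some (Sum.inr l)) := by simp [fa, hl]

theorem strk_step {k m : ℕ} (β : Fin k → Fin m) (p l : Fin k) (hl : l ≠ p) :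
    strk β (p + 1) (Sum.inr l) = strk β p (Sum.inr l) := by
  have h1 : l.val ≠ p.val := fun h => hl (Fin.ext h)
  rw [strk_inr, strk_inr]
  by_cases h2 : l.val < p.val
  · rw [if_pos h2, if_pos (by omega)]
  · rw [if_neg h2, if_neg (by omega)]

theorem main_b : S_B1 := by
  intro C K _ _ _ k m n c h β p
  have hr : ∀ o, (Qs (C := C) h β p).r (fa β p o) = (St C h β p).r o := by
    intro o
    rcases o with i | l
    · by_cases hi : i = β p
      · subst hi
        rw [fa_self]
        rfl
      · rw [fa_inl β p i hi]
        exact rk_succ_ne β p i hi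
    · by_cases hl : l = p
      · subst hl
        rw [fa_p]
        change 1 = strk β l (Sum.inr l)
        simp [strk]
      · rw [fa_inr β p l hl]
        exact strk_step β p l hl
  refine ⟨hr, ?_⟩
  intro z hz
  obtain ⟨⟨⟨hz1, hz2⟩, hz3, hz4⟩, hz5, hz6⟩ := hz
  refine ⟨?_, ?_⟩
  · intro o
    rcases o with i | l
    · by_cases hi : i = β p
      · subst hi
        have h3 : Module.finrank C (z (fa β p (Sum.inl (β p)))) = rk β p (β p) := by
          rw [fa_self]
          exact hz3
        exact h3
      · have h3 : Module.finrank C (z (fa β p (Sum.inl i))) = strk β (p + 1) (Sum.inl i) := by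
          rw [fa_inl β p i hi]
          exact hz1 (Sum.inl i)
        exact h3.trans (rk_succ_ne β p i hi)
    · by_cases hl : l = p
      · subst hl
        have h2 : strk β l (Sum.inr l) = 1 := by simp [strk]
        have h3 : Module.finrank C (z (fa β l (Sum.inr l))) = 1 := by
          rw [fa_p]
          exact hz5
        exact h3.trans h2.symm
      · have h3 : Module.finrank C (z (fa β p (Sum.inr l))) = strk β (p + 1) (Sum.inr l) := by
          rw [fa_inr β p l hl]
          exact hz1 (Sum.inr l)
        exact h3.trans (strk_step β p l hl)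
  · intro v hv
    refine hz2 v ?_
    intro l
    have hvl : v l ∈ z (fa β p (stb β p l)) := hv l
    change v l ∈ z (some (some (stb β (p + 1) l)))
    rcases lt_trichotomy l.val p.val with hl | hl | hl
    · have h1 : stb β p l = Sum.inl (β l) := by simp [stb, hl]
      have h2 : stb β (p + 1) l = Sum.inl (β l) := by
        simp only [stb]
        rw [if_pos (by omega)]
      rw [h2]
      rw [h1] at hvl
      by_cases hb : β l = β p
      · rw [hb, fa_self] at hvl
        rw [hb]
        exact hz4 hvl
      · rw [fa_inl β p _ hb] at hvl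
        exact hvl
    · have hlp : l = p := Fin.ext hl
      subst hlp
      have h1 : stb β l l = Sum.inr l := by simp [stb]
      have h2 : stb β (l + 1) l = Sum.inl (β l) := by
        simp only [stb]
        rw [if_pos (by omega)]
      rw [h2]
      rw [h1, fa_p] at hvl
      exact hz6 hvl
    · have h1 : stb β p l = Sum.inr l := by
        simp only [stb]
        rw [if_neg (by omega)]
      have h2 : stb β (p + 1) l = Sum.inr l := by
        simp only [stb]
        rw [if_neg (by omega)]
      have hlp : l ≠ p := fun h => by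
        rw [h] at hl
        omega
      rw [h2]
      rw [h1, fa_inr β p l hlp] at hvl
      exact hvl

end Pool.Agent.H88.VH.B0
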