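import Pool.Agent.H88.VG.B2
import Pool.Agent.H88.VH.B0

/-!
# Products of Grassmannians, B2: the map of one step is bijective off the closed subset
-/

set_option autoImplicit false

open MvPolynomial Pool.Agent.Y129.TA Pool.Agent.Y129.TB Pool.Agent.H88.VL
open Pool.Agent.H88.VG (GSet Mor incl down locus zeros value MultiHom inter Approximable Theory Rp)
open Pool.Agent.H88.VG.B2 (finrank_sup)
open Pool.Agent.H88.VH.B0

universe u v

namespace Pool.Agent.H88.VH.B2

/-- A basis of a subspace as a family of vectors. -/
theorem exists_family {C : Type} [Field C] {n : ℕ} {ι : Type} [Fintype ι]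
    {M : Submodule C (Fin n → C)} (hM : Module.finrank C M = Fintype.card ι) :
    ∃ u : ι → Fin n → C, Submodule.span C (Set.range u) = M := by
  obtain ⟨u, hu⟩ := Pool.Agent.H88.VG.B2.exists_family hM
  refine ⟨u ∘ Fintype.equivFin ι, ?_⟩
  rw [Set.range_comp, Set.range_eq_univ.2 (Fintype.equivFin ι).surjective, Set.image_univ]
  exact hu

/-- The locus condition for the sum. -/
theorem value_sup {C K : Type} [Field C] [Field K] [Algebra K C] {k m n c : ℕ}
    (h : Fin c → MvPolynomial (Fin k × Fin n) K) {β : Fin k → Fin m} {p : Fin k}
    (hsat : Saturated C h β) {y : Fin m ⊕ Fin k → Submodule C (Fin n → C)}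
    (hy : y ∈ (St C h β p).pts) (v : Fin k → Fin n → C)
    (hv0 : ∀ l : Fin k, l.val ≤ p.val → β l ≠ β p → v l ∈ y (Sum.inl (β l)))
    (hv : ∀ l : Fin k, l.val ≤ p.val → β l = β p → v l ∈ y (Sum.inl (β p)) ⊔ y (Sum.inr p))
    (hv' : ∀ l : Fin k, p.val < l.val → v l ∈ y (Sum.inr l)) (j : Fin c) :
    value C (h j) v = 0 := by
  classical
  have h1 : ∀ i, Module.finrank C (y (Sum.inl i)) =
      Fintype.card {l : Fin k // l.val < p.val ∧ β l = i} := by
    intro i
    rw [Fintype.card_subtype]
    exact hy.1 (Sum.inl i)
  have h2 : Module.finrank C (y (Sum.inr p)) = 1 := by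
    have := hy.1 (Sum.inr p)
    simpa [St, locus, strk] using this
  choose u hu using fun i => exists_family (h1 i)
  obtain ⟨u', hu'⟩ := Pool.Agent.H88.VG.B2.exists_family h2
  set w : Fin k → Fin n → C := fun l =>
    if hl : l.val < p.val then u (β l) ⟨l, hl, rfl⟩ else if l = p then u' 0 else v l with hw
  have hw1 : ∀ l (hl : l.val < p.val), w l = u (β l) ⟨l, hl, rfl⟩ := fun l hl => dif_pos hl
  have hw2 : w p = u' 0 := by simp [hw]
  have hw3 : ∀ l : Fin k, p.val < l.val → w l = v l := fun l hl => by
    have h3 : ¬ l.val < p.val := by omega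
    have h4 : l ≠ p := fun h => by rw [h] at hl; omega
    exact (dif_neg h3).trans (if_neg h4)
  -- the subspaces are spanned by the vectors of the block
  have hsub : ∀ i, y (Sum.inl i) ≤
      Submodule.span C (Set.range fun l' => if i = β l' then w l' else 0) := by
    intro i
    rw [← hu i]
    refine Submodule.span_le.2 ?_
    rintro _ ⟨⟨l', hl', rfl⟩, rfl⟩
    refine Submodule.subset_span ⟨l', ?_⟩
    simp only [if_true]
    exact hw1 l' hl'
  have hspan : ∀ l, v l ∈ Submodule.span C (Set.range fun l' => if β l = β l' then w l' else 0) := by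
    intro l
    rcases le_or_gt l.val p.val with hl | hl
    · by_cases hb : β l = β p
      · have h5 : y (Sum.inl (β p)) ⊔ y (Sum.inr p) ≤
            Submodule.span C (Set.range fun l' => if β l = β l' then w l' else 0) := by
          refine sup_le ?_ ?_
          · exact le_of_eq_of_le (by rw [hb]) (hsub (β l))
          · rw [← hu']
            refine Submodule.span_le.2 ?_
            rintro _ ⟨a, rfl⟩
            refine Submodule.subset_span ⟨p, ?_⟩
            simp only [if_pos hb]
            rw [hw2, Subsingleton.elim a 0]
        exact h5 (hv l hl hb)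
      · exact hsub _ (hv0 l hl hb)
    · refine Submodule.subset_span ⟨l, ?_⟩
      simp only [if_true]
      exact hw3 l hl
  have hval : ∀ j, value C (h j) w = 0 := by
    refine hy.2 w fun l => ?_
    rcases lt_trichotomy l.val p.val with hl | hl | hl
    · have : stb β p l = Sum.inl (β l) := by simp [stb, hl]
      rw [this, hw1 l hl, ← hu]
      exact Submodule.subset_span ⟨_, rfl⟩
    · have h6 : l = p := Fin.ext hl
      subst h6
      have : stb β l l = Sum.inr l := by simp [stb]
      rw [this, hw2, ← hu']
      exact Submodule.subset_span ⟨_, rfl⟩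
    · have : stb β p l = Sum.inr l := by
        have : ¬ l.val < p.val := by omega
        simp only [stb]
        rw [if_neg this]
      rw [this, hw3 l hl]
      exact hv' l hl
  choose g hg using fun l => (Submodule.mem_span_range_iff_exists_fun C).1 (hspan l)
  have h7 := hsat w hval (fun l l' => if β l = β l' then g l l' else 0)
    (fun a b hab => if_neg hab) j
  have h8 : (fun q => ∑ l, (if β q = β l then g q l else 0) • w l) = v := by
    funext q
    rw [← hg q]
    refine Finset.sum_congr rfl fun l _ => ?_
    by_cases hb : β q = β l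
    · rw [if_pos hb, if_pos hb]
    · rw [if_neg hb, if_neg hb, zero_smul, smul_zero]
  rw [← h8]
  exact h7

theorem main : S_B2 := by
  intro C K _ _ _ k m n c h β p hsat f hf
  obtain ⟨fa', hr, hm⟩ := f
  obtain rfl : fa' = fa β p := hf
  constructor
  · intro y hy hB
    have hB' : ¬ y (Sum.inr p) ≤ y (Sum.inl (β p)) := fun h' => hB ⟨hy, h'⟩
    have h1 : Module.finrank C (y (Sum.inl (β p))) = rk β p (β p) := hy.1 (Sum.inl (β p))
    have h2 : Module.finrank C (y (Sum.inr p)) = 1 := by
      have := hy.1 (Sum.inr p)
      simpa [St, locus, strk] using this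
    let z : Option (Option (Fin m ⊕ Fin k)) → Submodule C (Fin n → C) := fun o =>
      o.elim (y (Sum.inr p)) fun o => o.elim (y (Sum.inl (β p))) fun o =>
        o.elim (fun i => if i = β p then y (Sum.inl (β p)) ⊔ y (Sum.inr p) else y (Sum.inl i))
          fun l => if l = p then ⊥ else y (Sum.inr l)
    have zp : z (some (some (Sum.inl (β p)))) = y (Sum.inl (β p)) ⊔ y (Sum.inr p) := if_pos rfl
    have zi : ∀ i, i ≠ β p → z (some (some (Sum.inl i))) = y (Sum.inl i) := fun i hi => if_neg hi
    have zr : z (some (some (Sum.inr p))) = ⊥ := if_pos rfl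
    have zl : ∀ l, l ≠ p → z (some (some (Sum.inr l))) = y (Sum.inr l) := fun l hl => if_neg hl
    refine ⟨z, ⟨⟨⟨?_, ?_⟩, h1, ?_⟩, h2, ?_⟩, ?_⟩
    · rintro (i | l)
      · by_cases hi : i = β p
        · subst hi
          change Module.finrank C (z (some (some (Sum.inl (β p))))) = rk β (p + 1) (β p)
          rw [zp, rk_succ_self]
          exact finrank_sup h1 h2 hB'
        · change Module.finrank C (z (some (some (Sum.inl i)))) = rk β (p + 1) i
          rw [zi i hi, rk_succ_ne β p i hi]
          exact hy.1 (Sum.inl i)
      · by_cases hl : l = p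
        · subst hl
          change Module.finrank C (z (some (some (Sum.inr l)))) = strk β (l + 1) (Sum.inr l)
          rw [zr, strk_inr, if_pos (by omega)]
          exact finrank_bot C (Fin n → C)
        · change Module.finrank C (z (some (some (Sum.inr l)))) = strk β (p + 1) (Sum.inr l)
          rw [zl l hl, strk_step β p l hl]
          exact hy.1 (Sum.inr l)
    · intro v hv j
      have hv1 : ∀ l, v l ∈ z (some (some (stb β (p + 1) l))) := hv
      refine value_sup h hsat hy v (fun l hl hb => ?_) (fun l hl hb => ?_) (fun l hl => ?_) j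
      · have h6 : stb β (p + 1) l = Sum.inl (β l) := by
          simp only [stb]
          rw [if_pos (by omega)]
        have := hv1 l
        rwa [h6, zi _ hb] at this
      · have h6 : stb β (p + 1) l = Sum.inl (β l) := by
          simp only [stb]
          rw [if_pos (by omega)]
        have := hv1 l
        rwa [h6, hb, zp] at this
      · have h6 : stb β (p + 1) l = Sum.inr l := by
          simp only [stb]
          rw [if_neg (by omega)]
        have := hv1 l
        rwa [h6, zl l (fun h => by rw [h] at hl; omega)] at this
    · exact le_of_le_of_eq le_sup_left zp.symm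
    · exact le_of_le_of_eq le_sup_right zp.symm
    · funext o
      change z (fa β p o) = y o
      rcases o with i | l
      · by_cases hi : i = β p
        · subst hi
          rw [fa_self]
          rfl
        · rw [fa_inl β p i hi]
          exact zi i hi
      · by_cases hl : l = p
        · subst hl
          rw [fa_p]
          rfl
        · rw [fa_inr β p l hl]
          exact zl l hl
  · intro x hx x' hx' hB he
    have hB' : ¬ x none ≤ x (some none) := by
      intro h'
      refine hB ⟨hm x hx, ?_⟩
      change x (fa β p (Sum.inr p)) ≤ x (fa β p (Sum.inl (β p)))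
      rw [fa_p, fa_self]
      exact h'
    have he' : ∀ o, x (fa β p o) = x' (fa β p o) := fun o => congrFun he o
    have e1 : x none = x' none := by
      have := he' (Sum.inr p)
      rwa [fa_p] at this
    have e2 : x (some none) = x' (some none) := by
      have := he' (Sum.inl (β p))
      rwa [fa_self] at this
    have e3 : ∀ l : Fin k, x (some (some (Sum.inr l))) = x' (some (some (Sum.inr l))) := by
      intro l
      by_cases hl : l = p
      · have h1 := hx.1.1.1 (Sum.inr l)
        have h2 := hx'.1.1.1 (Sum.inr l)
        have h4 : strk β (p + 1) (Sum.inr l) = 0 := by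
          rw [strk_inr, if_pos (by rw [hl]; omega)]
        have h5 : Module.finrank C (x (some (some (Sum.inr l)))) = 0 := h1.trans h4
        have h6 : Module.finrank C (x' (some (some (Sum.inr l)))) = 0 := h2.trans h4
        rw [Submodule.finrank_eq_zero] at h5 h6
        exact h5.trans h6.symm
      · have := he' (Sum.inr l)
        rwa [fa_inr β p l hl] at this
    have e4 : ∀ i : Fin m, i ≠ β p →
        x (some (some (Sum.inl i))) = x' (some (some (Sum.inl i))) := by
      intro i hi
      have := he' (Sum.inl i)
      rwa [fa_inl β p i hi] at this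
    have key : ∀ z ∈ (Qs (C := C) h β p).pts, ¬ z none ≤ z (some none) →
        z (some (some (Sum.inl (β p)))) = z (some none) ⊔ z none := by
      intro z hz hn
      symm
      refine Submodule.eq_of_le_of_finrank_eq (sup_le hz.1.2.2 hz.2.2) ?_
      rw [finrank_sup hz.1.2.1 hz.2.1 hn]
      have h9 : Module.finrank C (z (some (some (Sum.inl (β p))))) = rk β (p + 1) (β p) :=
        hz.1.1.1 (Sum.inl (β p))
      rw [h9, rk_succ_self]
    funext o
    rcases o with _ | _ | i | l
    · exact e1
    · exact e2
    · by_cases hi : i = β p
      · subst hi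
        have h1 := key x hx hB'
        have h2 := key x' hx' (by rw [← e1, ← e2]; exact hB')
        exact h1.trans ((congrArg₂ (fun a b => a ⊔ b) e2 e1).trans h2.symm)
      · exact e4 i hi
    · exact e3 l

end Pool.Agent.H88.VH.B2
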