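import Pool.Agent.H88.VH.B0

/-!
# Products of Grassmannians, B4: forgetting the zero subspaces
-/

set_option autoImplicit false

open MvPolynomial Pool.Agent.Y129.TA Pool.Agent.Y129.TB Pool.Agent.H88.VL
open Pool.Agent.H88.VG (GSet Mor incl down locus zeros value MultiHom inter Approximable Theory Rp)

universe u v

namespace Pool.Agent.H88.VH.B4

theorem main_a : S_B4a := by
  intro C K _ _ _ k m n c h β
  have key : ∀ z ∈ (St C h β k).pts, (fun i : Fin m => z (Sum.inl i)) ∈ (prodGrass C h β).pts := by
    intro z hz
    refine ⟨fun i => ?_, fun w hw => hz.2 w fun p => ?_⟩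
    · have h1 : Module.finrank C (z (Sum.inl i)) = rk β k i := hz.1 (Sum.inl i)
      exact h1.trans (B0.rk_top β i)
    · have h1 : stb β k p = Sum.inl (β p) := by simp [stb, p.2]
      rw [h1]
      exact hw p
  refine ⟨key, fun f hf => ⟨?_, ?_⟩⟩
  · intro y hy _
    refine ⟨Sum.elim y fun _ => ⊥, ⟨?_, ?_⟩, ?_⟩
    · rintro (i | p)
      · have h1 : Module.finrank C (y i) = size β i := hy.1 i
        exact h1.trans (B0.rk_top β i).symm
      · have h3 : strk β k (Sum.inr p) = 0 := by simp [strk]
        rw [h3]
        exact finrank_bot C (Fin n → C)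
    · intro w hw j
      refine hy.2 w (fun p => ?_) j
      have h1 := hw p
      have h2 : stb β k p = Sum.inl (β p) := by simp [stb, p.2]
      rw [h2] at h1
      exact h1
    · funext i
      show Sum.elim y (fun _ => ⊥) (f.a i) = y i
      rw [hf]
      rfl
  · intro x hx x' hx' _ he
    funext o
    rcases o with i | p
    · have := congrFun he i
      simp only [Pool.Agent.H88.VG.Mor.app] at this
      rw [hf] at this
      exact this
    · have h1 := hx.1 (Sum.inr p)
      have h2 := hx'.1 (Sum.inr p)
      have h3 : strk β k (Sum.inr p) = 0 := by simp [strk]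
      rw [h3] at h1 h2
      rw [Submodule.finrank_eq_zero] at h1 h2
      rw [h1, h2]

theorem main_b : S_B4b := by
  intro C K _ _ _ k m n c h β
  have key : ∀ z ∈ (St C h β 0).pts, (fun p : Fin k => z (Sum.inr p)) ∈ (zeros C h).pts := by
    intro z hz
    refine ⟨fun p => ?_, fun w hw => hz.2 w fun p => ?_⟩
    · have := hz.1 (Sum.inr p)
      simpa [strk] using this
    · have h1 : stb β 0 p = Sum.inr p := by simp [stb]
      rw [h1]
      exact hw p
  refine ⟨key, fun f hf => ⟨?_, ?_⟩⟩
  · intro y hy _
    refine ⟨Sum.elim (fun _ => ⊥) fun p => y p, ⟨?_, ?_⟩, ?_⟩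
    · rintro (i | p)
      · have h3 : strk β 0 (Sum.inl i) = 0 := B0.rk_zero β i
        rw [h3]
        exact finrank_bot C (Fin n → C)
      · have h3 : strk β 0 (Sum.inr p) = 1 := by simp [strk]
        rw [h3]
        exact hy.1 p
    · intro w hw j
      refine hy.2 w (fun p => ?_) j
      have h1 := hw p
      have h2 : stb β 0 p = Sum.inr p := by simp [stb]
      rw [h2] at h1
      exact h1
    · funext p
      show Sum.elim (fun _ => ⊥) (fun p => y p) (f.a p) = y p
      rw [hf]
      rfl
  · intro x hx x' hx' _ he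
    funext o
    rcases o with i | p
    · have h1 := hx.1 (Sum.inl i)
      have h2 := hx'.1 (Sum.inl i)
      have h3 : strk β 0 (Sum.inl i) = 0 := B0.rk_zero β i
      rw [h3] at h1 h2
      rw [Submodule.finrank_eq_zero] at h1 h2
      rw [h1, h2]
    · have := congrFun he p
      simp only [Pool.Agent.H88.VG.Mor.app] at this
      rw [hf] at this
      exact this

end Pool.Agent.H88.VH.B4
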