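import Pool.Agent.H88.VG.Base

/-!
# Zeros of polynomials on products of Grassmannians: definitions
-/

set_option autoImplicit false

open MvPolynomial

namespace Pool.Agent.H88.VH

variable {k m n c : ℕ}

/-- The number of the vectors in the block `i`. -/
def size (β : Fin k → Fin m) (i : Fin m) : ℕ := (Finset.univ.filter fun p => β p = i).card

/-- The dimension of the product of the Grassmannians of subspaces of dimensions `size β i` of an
`n`-dimensional space. -/
def grDim (n : ℕ) (β : Fin k → Fin m) : ℕ := ∑ i, size β i * (n - size β i)

/-- The set of the tuples of subspaces `L i` of dimensions `size β i`, `i < m`, such that the `h j` are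
zero for all vectors `v p` in `L (β p)`, `p < k`. -/
def prodGrass (C : Type) [Field C] {K : Type} [Field K] [Algebra K C]
    (h : Fin c → MvPolynomial (Fin k × Fin n) K) (β : Fin k → Fin m) : VG.GSet C n :=
  VG.locus C h (size β) β

/-- The matrix has blocks `i < m`. -/
def IsBlock {C : Type} [Field C] (β : Fin k → Fin m) (g : Matrix (Fin k) (Fin k) C) : Prop :=
  ∀ p l, β p ≠ β l → g p l = 0

/-- With a family of vectors, the `h j` are zero also for the families obtained by block matrices. -/
def Saturated (C : Type) [Field C] {K : Type} [Field K] [Algebra K C]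
    (h : Fin c → MvPolynomial (Fin k × Fin n) K) (β : Fin k → Fin m) : Prop :=
  ∀ v : Fin k → Fin n → C, (∀ j, VG.value C (h j) v = 0) →
    ∀ g : Matrix (Fin k) (Fin k) C, IsBlock β g → ∀ j,
      VG.value C (h j) (fun p => ∑ l, g p l • v l) = 0

/-- The polynomial is, up to the factor `det (g_i) ^ a i` for each block `i`, invariant for the block
matrices `g`: it is a multihomogeneous form of multidegree `a` in the Pluecker coordinates. -/
def IsPlueckerForm (C : Type) [Field C] {K : Type} [Field K] [Algebra K C] (β : Fin k → Fin m)
    (P : MvPolynomial (Fin k × Fin n) K) (a : Fin m → ℕ) : Prop :=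
  ∀ (v : Fin k → Fin n → C) (g : Matrix (Fin k) (Fin k) C), IsBlock β g →
    VG.value C P (fun p => ∑ l, g p l • v l) =
      (∏ i, (g.submatrix (Subtype.val : {p // β p = i} → Fin k) Subtype.val).det ^ a i) *
        VG.value C P v

/-- The multidegrees `a j`, `j < c`, and `d` copies of `(1, …, 1)` can be assigned to factors in which
they are positive, with `size β i * (n - size β i)` of them assigned to the factor `i`. -/
def Positive (n : ℕ) (β : Fin k → Fin m) (a : Fin c → Fin m → ℕ) (d : ℕ) : Prop :=
  ∃ τ : Fin c ⊕ Fin d → Fin m, (∀ j, 0 < a j (τ (Sum.inl j))) ∧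
    ∀ i, (Finset.univ.filter fun x => τ x = i).card = size β i * (n - size β i)

/-- The power of degree `d` of `∑ w (β p) * x_p`, times the product of the squares of the differences
`x_p - x_l` in the same block. -/
noncomputable def weyl (β : Fin k → Fin m) (w : Fin m → ℤ) (d : ℕ) : MvPolynomial (Fin k) ℤ :=
  (∑ p, C (w (β p)) * X p) ^ d *
    ∏ p, ∏ l ∈ (Finset.Ioi p).filter fun l => β l = β p, (X p - X l) ^ 2

end Pool.Agent.H88.VH
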