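import Pool.Agent.H88.VH.B0
import Pool.Agent.H88.VG.C1

/-!
# Products of Grassmannians: the Chern polynomial step
-/

set_option autoImplicit false

open Pool.Agent.H88.VG (Rp)

universe u v

namespace Pool.Agent.H88.VH.C1

open Pool.Agent.H88.VH

theorem filter_eq {k : ℕ} (p : Fin k) :
    (Finset.univ.filter fun q : Fin k => p.val ≤ q.val)
      = insert p (Finset.univ.filter fun q : Fin k => p.val + 1 ≤ q.val) := by
  ext i
  simp only [Finset.mem_filter, Finset.mem_univ, true_and, Finset.mem_insert, Fin.ext_iff]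
  omega

theorem notMem {k : ℕ} (p : Fin k) :
    p ∉ (Finset.univ.filter fun q : Fin k => p.val + 1 ≤ q.val) := by
  simp

theorem Ioi_eq {k : ℕ} (p : Fin k) :
    Finset.Ioi p = (Finset.univ.filter fun q : Fin k => p.val + 1 ≤ q.val) := by
  ext i
  simp only [Finset.mem_filter, Finset.mem_univ, true_and, Finset.mem_Ioi, Fin.lt_def]
  omega

/-- elements congruent modulo the annihilator of `E` -/
theorem congr_ann {R : Type u} [CommRing R] (E l t : R) (h : (t - l) * E = 0) {ι : Type}
    (S : Finset ι) (P : ι → Prop) [DecidablePred P] (x : ι → R) (A B W : R) (g : ι → R) (d : ℕ) :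
    (A + W * l) ^ d * (∏ i ∈ S, ((if P i then x i - l else 1) * g i) ^ 2) * B * E ^ 2
      = (A + W * t) ^ d * (∏ i ∈ S, ((if P i then t - x i else 1) * g i) ^ 2) * B * E ^ 2 := by
  set I : Ideal R := LinearMap.ker (LinearMap.mulLeft R E) with hI
  have hmem : t - l ∈ I := by
    rw [hI, LinearMap.mem_ker, LinearMap.mulLeft_apply, mul_comm]
    exact h
  have htl : Ideal.Quotient.mk I t = Ideal.Quotient.mk I l := Ideal.Quotient.eq.2 hmem
  have hq : Ideal.Quotient.mk I ((A + W * l) ^ d *
        (∏ i ∈ S, ((if P i then x i - l else 1) * g i) ^ 2) * B)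
      = Ideal.Quotient.mk I ((A + W * t) ^ d *
        (∏ i ∈ S, ((if P i then t - x i else 1) * g i) ^ 2) * B) := by
    simp only [map_mul, map_pow, map_add, map_prod, htl]
    congr 2
    refine Finset.prod_congr rfl fun i _ => ?_
    split_ifs
    · rw [map_sub, map_sub, htl]
      ring
    · rfl
  have h2 := Ideal.Quotient.eq.1 hq
  rw [hI, LinearMap.mem_ker, LinearMap.mulLeft_apply] at h2
  linear_combination E * h2

theorem main : S_C1.{u} := by
  intro R _ k m d β w p c c' l x hc0 hc'0 hne hc hs' hR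
  set r := rk β p (β p) with hr
  have hrp : ∀ t, Rp (r + 1) (c (β p)) t = (t - l) * Rp r (c' (β p)) t := fun t =>
    Pool.Agent.H88.VG.C1.rp_succ r (c (β p)) (c' (β p)) l t (hc0 _) (hc'0 _) hc hs'
  set E := Rp r (c' (β p)) (x p) with hE
  have hann : (x p - l) * E = 0 := by
    rw [hE, ← hrp]
    exact hR
  set S : Finset (Fin k) := Finset.univ.filter fun q : Fin k => p.val + 1 ≤ q.val with hS
  have hc1 : ∑ i, (w i : R) * c i 1 = ∑ i, (w i : R) * c' i 1 + (w (β p) : R) * l := by
    have h1 : ∀ i, (w i : R) * c i 1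
        = (w i : R) * c' i 1 + if i = β p then (w (β p) : R) * l else 0 := by
      intro i
      split_ifs with hi
      · subst hi
        rw [hc 0, hc'0, one_mul]
        ring
      · rw [hne i hi, add_zero]
    rw [Finset.sum_congr rfl fun i _ => h1 i, Finset.sum_add_distrib]
    congr 1
    simp
  have hfac : ∀ q : Fin k, Rp (rk β (p + 1) (β q)) (c (β q)) (x q)
      = (if β q = β p then x q - l else 1) * Rp (rk β p (β q)) (c' (β q)) (x q) := by
    intro q
    split_ifs with hq
    · rw [hq, B0.rk_succ_self, ← hr, hrp]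
    · rw [B0.rk_succ_ne β p _ hq, hne _ hq, one_mul]
  have hL : Th β w d (p + 1) c x * E ^ 2
      = ((∑ i, (w i : R) * c' i 1 + ∑ q ∈ S, (w (β q) : R) * x q) + (w (β p) : R) * l) ^ d *
        (∏ q ∈ S, ((if β q = β p then x q - l else 1) *
          Rp (rk β p (β q)) (c' (β q)) (x q)) ^ 2) *
        (∏ q ∈ S, ∏ l ∈ (Finset.Ioi q).filter fun l => β l = β q, (x q - x l) ^ 2) * E ^ 2 := by
    unfold Th
    rw [hc1]
    simp only [hfac]
    rw [← hS]
    ring
  rw [hL, congr_ann E l (x p) hann]
  unfold Th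
  rw [filter_eq p, Finset.sum_insert (notMem p), Finset.prod_insert (notMem p),
    Finset.prod_insert (notMem p), Ioi_eq p, ← hS, ← hr, ← hE]
  have h2 : ∏ q ∈ S.filter (fun q => β q = β p), (x p - x q) ^ 2
      = ∏ q ∈ S, if β q = β p then (x p - x q) ^ 2 else 1 := Finset.prod_filter _ _
  have h1 : ∏ q ∈ S, ((if β q = β p then x p - x q else 1) *
        Rp (rk β p (β q)) (c' (β q)) (x q)) ^ 2
      = (∏ q ∈ S, if β q = β p then (x p - x q) ^ 2 else 1) *
        ∏ q ∈ S, Rp (rk β p (β q)) (c' (β q)) (x q) ^ 2 := by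
    rw [← Finset.prod_mul_distrib]
    refine Finset.prod_congr rfl fun q _ => ?_
    split_ifs
    · ring
    · ring
  rw [h1, h2]
  ring

end Pool.Agent.H88.VH.C1
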