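import Pool.Agent.H88.VG.Base

/-!
# The cohomology of closed subsets of products of Grassmannians over a perfectoid field and its tilt
-/

set_option autoImplicit false

open MvPolynomial Pool.Agent.Y129.TA Pool.Agent.Y129.TB Pool.Agent.H88.VL
open Pool.Agent.H88.VG (MultiHom inter Theory zeros value)

universe u v

namespace Pool.Agent.H88.VH

variable {C F : Type} [Field C] [Field F] {n : ℕ} {Ω : Type v} [Field Ω]

/-- The set of the common zeros of the `g j` lies in the neighbourhood `|h j| ≤ ε` of the set of the
common zeros of the `h j`: `|h j (t♯)| ≤ ε` for all common zeros `t` of the `g j` with `|t i| ≤ 1`. -/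
def InTube {p : ℕ} (𝓣 : TiltPair p C F) {K E : Type} [Field K] [Field E] [Algebra K C] [Algebra E F]
    {k c c' : ℕ} (h : Fin c → MvPolynomial (Fin k × Fin n) K)
    (g : Fin c' → MvPolynomial (Fin k × Fin n) E) (ε : ℝ) : Prop :=
  ∀ t : Fin k → Fin n → F, (∀ i l, 𝓣.absF (t i l) ≤ 1) → (∀ j, value F (g j) t = 0) →
    ∀ j, 𝓣.absK (value C (h j) fun i l => 𝓣.sharp (t i l)) ≤ ε

/-- Tubular neighbourhoods and tilting (Huber, Scholze): let `Z` be the set of the zeros of
multihomogeneous polynomials `h j` over `K` in a product of projective spaces. There is `ε > 0` such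
that for all sets `Y` of zeros of multihomogeneous polynomials `g j` over `E` in the neighbourhood
`|h j| ≤ ε` of `Z` there is a homomorphism from the cohomology of `Z` to the cohomology of `Y` which
respects the hyperplane classes. -/
def Tubes {p : ℕ} (𝓣 : TiltPair p C F) (K E : Type) [Field K] [Field E] [Algebra K C] [Algebra E F]
    (T : Theory.{u, v} C n Ω) (T' : Theory.{u, v} F n Ω) : Prop :=
  ∀ {k c : ℕ} (h : Fin c → MvPolynomial (Fin k × Fin n) K) (a : Fin c → Fin k → ℕ),
    (∀ j, MultiHom (h j) (a j)) → ∃ ε : ℝ, 0 < ε ∧
      ∀ {c' : ℕ} (g : Fin c' → MvPolynomial (Fin k × Fin n) E) (b : Fin c' → Fin k → ℕ),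
        (∀ j, MultiHom (g j) (b j)) → InTube 𝓣 h g ε →
          ∃ s : (T.coh (zeros C h)).Hom (T'.coh (zeros F g)),
            ∀ i : Fin k, s.s (T.chern (zeros C h) i 1) = T'.chern (zeros F g) i 1

/-- Purity in characteristic `p` (Deligne, de Jong) and intersection theory (Fulton), for dimension `D`:
let `Y` be the set of the common zeros of multihomogeneous polynomials `g j` over `E` of multidegrees
`b j`, in a product of projective spaces of dimension `D + c`. There are a local algebra `A`, mw pure in
all degrees (the product of the cohomology algebras of regular alterations of the components of a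
cycle of dimension `D` on `Y` which represents the intersection of the divisors `g j = 0`), and a
homomorphism from the cohomology of `Y` to `A` such that the traces of the images of the monomials in
the hyperplane classes are the intersection numbers. -/
def PureCycle [CharZero Ω] (T' : Theory.{u, v} F n Ω) (q : ℕ) {E : Type} [Field E] [Algebra E F]
    {k c : ℕ} (g : Fin c → MvPolynomial (Fin k × Fin n) E) (b : Fin c → Fin k → ℕ) (D : ℕ) : Prop :=
  ∃ (A : Alg.{u, v} Ω) (s : (T'.coh (zeros F g)).Hom A) (t : A.Trace q D), A.Local q ∧
    (∀ i, A.MWPure q i) ∧ ∀ e : Fin k → ℕ, ∑ i, e i = D →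
      t.t (s.s (List.ofFn fun i : Fin k => T'.chern (zeros F g) i 1 ^ e i).prod) =
        (inter n b (∏ i, X i ^ e i) : ℤ)

/-- The known properties of the `ℓ`-adic cohomology `T` of the closed subsets, defined over the
perfectoid field `K`, of products of Grassmannians over `C`, and of the `ℓ`-adic cohomology `T'` of the
closed subsets, defined over the tilt `E` of `K`, of products of projective spaces over `F`. -/
structure Ladic {p : ℕ} [Fact p.Prime] [CharZero Ω] (𝓣 : Tilting p C F) (K E : Type) [Field K]
    [Field E] [Algebra K C] [Algebra E F] (q : ℕ) (T : Theory.{u, v} C n Ω)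
    (T' : Theory.{u, v} F n Ω) : Prop extends T.Functorial K q, T.Chern K q, T.Descent K where
  bundles : T.Bundles K
  tubes : Tubes 𝓣.toTiltPair K E T T'
  cycles : ∀ {k c : ℕ} (g : Fin c → MvPolynomial (Fin k × Fin n) E) (b : Fin c → Fin k → ℕ) (D : ℕ),
    0 < n → (∀ j, MultiHom (g j) (b j)) → D + c = k * (n - 1) → PureCycle T' q g b D

end Pool.Agent.H88.VH
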