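import Pool.Agent.H88.VH.B0

/-!
# Products of Grassmannians: the polynomial of Weyl
-/

set_option autoImplicit false

open MvPolynomial

universe u v

namespace Pool.Agent.H88.VH.D

open Pool.Agent.H88.VH
open Pool.Agent.H88.VG (Rp)

/-- the number of pairs `p < l` in the same block -/
theorem count {k m : ℕ} (β : Fin k → Fin m) :
    ∑ p : Fin k, 2 * ((Finset.Ioi p).filter fun l => β l = β p).card
      = ∑ i, size β i * (size β i - 1) := by
  have h1 : ∀ i, ∑ p ∈ Finset.univ.filter (fun p => β p = i),
      2 * ((Finset.Ioi p).filter fun l => β l = β p).card = size β i * (size β i - 1) := by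
    intro i
    set S : Finset (Fin k) := Finset.univ.filter fun p => β p = i with hS
    have h2 : ∀ p ∈ S, ((Finset.Ioi p).filter fun l => β l = β p) = S.filter fun l => p < l := by
      intro p hp
      have hp' : β p = i := by simpa [hS] using hp
      ext l
      simp [hS, hp', and_comm]
    have h3 : ∀ p ∈ S, (S.filter fun l => p < l).card + (S.filter fun l => l < p).card
        = S.card - 1 := by
      intro p hp
      have h4 : S.erase p = (S.filter fun l => p < l) ∪ (S.filter fun l => l < p) := by
        ext l
        simp only [Finset.mem_erase, Finset.mem_union, Finset.mem_filter]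
        constructor
        · rintro ⟨h5, h6⟩
          rcases lt_or_gt_of_ne h5 with h7 | h7
          · exact Or.inr ⟨h6, h7⟩
          · exact Or.inl ⟨h6, h7⟩
        · rintro (⟨h5, h6⟩ | ⟨h5, h6⟩)
          · exact ⟨ne_of_gt h6, h5⟩
          · exact ⟨ne_of_lt h6, h5⟩
      have h5 : Disjoint (S.filter fun l => p < l) (S.filter fun l => l < p) := by
        rw [Finset.disjoint_left]
        intro l h6 h7
        exact lt_asymm (Finset.mem_filter.1 h6).2 (Finset.mem_filter.1 h7).2
      rw [← Finset.card_union_of_disjoint h5, ← h4, Finset.card_erase_of_mem hp]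
    have h4 : ∑ p ∈ S, (S.filter fun l => p < l).card
        = ∑ p ∈ S, (S.filter fun l => l < p).card := by
      simp only [Finset.card_filter]
      rw [Finset.sum_comm]
    have h5 : ∑ p ∈ S, 2 * ((Finset.Ioi p).filter fun l => β l = β p).card
        = ∑ p ∈ S, ((S.filter fun l => p < l).card + (S.filter fun l => l < p).card) := by
      rw [Finset.sum_add_distrib, ← h4, ← Finset.mul_sum, two_mul]
      congr 1 <;> exact Finset.sum_congr rfl fun p hp => by rw [h2 p hp]
    rw [h5, Finset.sum_congr rfl h3, Finset.sum_const, smul_eq_mul]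
    rfl
  rw [← Finset.sum_fiberwise Finset.univ β]
  exact Finset.sum_congr rfl fun i _ => h1 i

theorem main_a : S_D3 := by
  intro k m d β w
  unfold weyl
  have h1 : (∑ p : Fin k, (C (w (β p)) * X p : MvPolynomial (Fin k) ℤ)).IsHomogeneous 1 := by
    refine IsHomogeneous.sum _ _ _ fun i _ => ?_
    have := (isHomogeneous_C (Fin k) (w (β i))).mul (isHomogeneous_X ℤ i)
    rwa [zero_add] at this
  have h2 := h1.pow d
  rw [one_mul] at h2
  apply h2.mul
  have h3 : ∀ p : Fin k, (∏ l ∈ (Finset.Ioi p).filter fun l => β l = β p,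
      ((X p : MvPolynomial (Fin k) ℤ) - X l) ^ 2).IsHomogeneous
      (2 * ((Finset.Ioi p).filter fun l => β l = β p).card) := by
    intro i
    have h4 : ∀ j ∈ (Finset.Ioi i).filter fun l => β l = β i,
        (((X i : MvPolynomial (Fin k) ℤ) - X j) ^ 2).IsHomogeneous 2 := by
      intro j _
      have := ((isHomogeneous_X ℤ i).sub (isHomogeneous_X ℤ j)).pow 2
      simpa using this
    have h5 := IsHomogeneous.prod ((Finset.Ioi i).filter fun l => β l = β i) _ (fun _ => 2) h4
    rw [Finset.sum_const, smul_eq_mul, mul_comm] at h5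
    exact h5
  have h6 := IsHomogeneous.prod Finset.univ _ _ fun i _ => h3 i
  rw [count] at h6
  exact h6

theorem main_b : S_D4.{u} := by
  intro R _ k m d β w c x h0 h1
  unfold Th weyl Rp
  simp [h0, h1, B0.rk_zero]

end Pool.Agent.H88.VH.D
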