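import Pool.Agent.H88.VH.Base
import Pool.Agent.H88.VG.Stm

/-!
# The intermediate varieties
-/

set_option autoImplicit false

open MvPolynomial Pool.Agent.Y129.TA Pool.Agent.Y129.TB Pool.Agent.H88.VL
open Pool.Agent.H88.VG (GSet Mor incl down locus zeros value MultiHom inter Approximable Theory Rp)

universe u v

namespace Pool.Agent.H88.VH

variable {k m n c : ℕ}

/-- the number of the vectors `p < s` in the block `i` -/
def rk (β : Fin k → Fin m) (s : ℕ) (i : Fin m) : ℕ :=
  (Finset.univ.filter fun p : Fin k => p.val < s ∧ β p = i).card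

/-- the dimensions -/
def strk (β : Fin k → Fin m) (s : ℕ) : Fin m ⊕ Fin k → ℕ :=
  Sum.elim (rk β s) fun p => if p.val < s then 0 else 1

/-- the factor containing the vector `p` -/
def stb (β : Fin k → Fin m) (s : ℕ) : Fin k → Fin m ⊕ Fin k :=
  fun p => if p.val < s then Sum.inl (β p) else Sum.inr p

/-- The tuples of subspaces `M i` of dimensions `rk β s i`, zero subspaces for `p < s` and
one-dimensional subspaces for `p ≥ s`. -/
def St (C : Type) [Field C] {K : Type} [Field K] [Algebra K C]
    (h : Fin c → MvPolynomial (Fin k × Fin n) K) (β : Fin k → Fin m) (s : ℕ) : GSet C n :=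
  locus C h (strk β s) (stb β s)

variable {C : Type} [Field C] {K : Type} [Field K] [Algebra K C]
  (h : Fin c → MvPolynomial (Fin k × Fin n) K) (β : Fin k → Fin m)

/-- The pairs of a point of `St h β (p + 1)` and a hyperplane `M'` in the subspace `M (β p)`. -/
def Fl (p : Fin k) : GSet C n := (St C h β (p + 1)).subs (Sum.inl (β p)) (rk β p (β p))

/-- The triples of a point of `St h β (p + 1)`, a hyperplane `M'` and a one-dimensional subspace `x` in
the subspace `M (β p)`. -/
def Qs (p : Fin k) : GSet C n := (Fl (C := C) h β p).subs (some (Sum.inl (β p))) 1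

/-- The factors of the map from `Qs h β p` to `St h β p`. -/
def fa (p : Fin k) : Fin m ⊕ Fin k → Option (Option (Fin m ⊕ Fin k))
  | Sum.inl i => if i = β p then some none else some (some (Sum.inl i))
  | Sum.inr l => if l = p then none else some (some (Sum.inr l))

/-- The points of `St h β p` where the one-dimensional subspace `p` is contained in `M (β p)`. -/
def Bs (p : Fin k) : Set (Fin m ⊕ Fin k → Submodule C (Fin n → C)) :=
  {w | w ∈ (St C h β p).pts ∧ w (Sum.inr p) ≤ w (Sum.inl (β p))}

/-- The projection of `Qs` to `St h β (p + 1)`. -/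
def dn (p : Fin k) : Mor (Qs (C := C) h β p) (St C h β (p + 1)) :=
  (down (St C h β (p + 1)) (Sum.inl (β p)) (rk β p (β p))).comp
    (down (Fl h β p) (some (Sum.inl (β p))) 1)

end Pool.Agent.H88.VH
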