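import Pool.Agent.H88.VH.Defs

/-!
# Products of Grassmannians: statements of the steps
-/

set_option autoImplicit false

open MvPolynomial Pool.Agent.Y129.TA Pool.Agent.Y129.TB Pool.Agent.H88.VL
open Pool.Agent.H88.VG (GSet Mor incl down locus zeros value MultiHom inter Approximable Theory Rp)

universe u v

namespace Pool.Agent.H88.VH

/-! ### Algebra -/

/-- The class of top degree. -/
def Th {R : Type u} [CommRing R] {k m : ℕ} (β : Fin k → Fin m) (w : Fin m → ℤ) (d s : ℕ)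
    (c : Fin m → ℕ → R) (x : Fin k → R) : R :=
  (∑ i, (w i : R) * c i 1 +
    ∑ p ∈ Finset.univ.filter fun p : Fin k => s ≤ p.val, (w (β p) : R) * x p) ^ d *
    (∏ p ∈ Finset.univ.filter fun p : Fin k => s ≤ p.val, Rp (rk β s (β p)) (c (β p)) (x p) ^ 2) *
    ∏ p ∈ Finset.univ.filter fun p : Fin k => s ≤ p.val,
      ∏ l ∈ (Finset.Ioi p).filter fun l => β l = β p, (x p - x l) ^ 2

/-- C1: compare `Pool/Agent/H88/VG/C1.lean` (one block). With `r = rk β p (β p)`: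
`Rp (r + 1) (c (β p)) t = Rp r (c' (β p)) t * (t - l)`. -/
def S_C1 : Prop := ∀ (R : Type u) [CommRing R] (k m d : ℕ) (β : Fin k → Fin m) (w : Fin m → ℤ)
  (p : Fin k) (c c' : Fin m → ℕ → R) (l : R) (x : Fin k → R), (∀ i, c i 0 = 1) →
  (∀ i, c' i 0 = 1) → (∀ i, i ≠ β p → c' i = c i) →
  (∀ a, c (β p) (a + 1) = c' (β p) (a + 1) + c' (β p) a * l) →
  c' (β p) (rk β p (β p) + 1) = 0 → Rp (rk β p (β p) + 1) (c (β p)) (x p) = 0 →
  Th β w d (p + 1) c x * Rp (rk β p (β p)) (c' (β p)) (x p) ^ 2 = Th β w d p c' x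

/-- D3 -/
def S_D3 : Prop := ∀ (k m d : ℕ) (β : Fin k → Fin m) (w : Fin m → ℤ),
  (weyl β w d).IsHomogeneous (d + ∑ i, size β i * (size β i - 1))

/-- D4 -/
def S_D4 : Prop := ∀ (R : Type u) [CommRing R] (k m d : ℕ) (β : Fin k → Fin m) (w : Fin m → ℤ)
  (c : Fin m → ℕ → R) (x : Fin k → R), (∀ i, c i 0 = 1) → (∀ i, c i 1 = 0) →
  Th β w d 0 c x = aeval x (weyl β w d)

/-- E1: from `VG.S_E1a` and `VG.S_E1b` (in `Pool/Agent/H88/VG/E1a.lean`, `E1b.lean`): with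
`σ i = ∑ x_p` over the block `i`, the polynomial is `(∑ σ i) ^ d * ∏ j (∑ i, a j i * σ i) * ∏ i, Δ i ^ 2`;
the coefficient of `∏ σ i ^ e i * ∏ Δ i ^ 2` is the product of the coefficients for the blocks, it is zero
if `e i` is not `size β i * (n - size β i)` for some `i`, and the sum of the coefficients of
`∏ σ i ^ (size β i * (n - size β i))` is positive by `Positive`. -/
def S_E1 : Prop := ∀ (k m n c d : ℕ) (β : Fin k → Fin m) (a : Fin c → Fin m → ℕ),
  (∀ i, size β i ≤ n) → Positive n β a d →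
  inter n (fun j p => a j (β p)) (weyl β (fun _ => 1) d) ≠ 0

/-- E2: compare `Pool/Agent/H88/VG/E2.lean` (one block). -/
def S_E2 : Prop := ∀ (C K : Type) [Field C] [Infinite C] [Field K] [Algebra K C] (k m n c : ℕ)
  (h : Fin c → MvPolynomial (Fin k × Fin n) K) (β : Fin k → Fin m) (a : Fin c → Fin m → ℕ),
  (∀ j, IsPlueckerForm C β (h j) (a j)) →
  (∀ j, MultiHom (h j) fun p => a j (β p)) ∧ Saturated C h β

/-! ### Geometry of one step -/

/-- B0: the numbers `rk` -/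
def S_B0 : Prop := ∀ (k m : ℕ) (β : Fin k → Fin m),
  (∀ p : Fin k, rk β (p + 1) (β p) = rk β p (β p) + 1) ∧
  (∀ (p : Fin k) (i : Fin m), i ≠ β p → rk β (p + 1) i = rk β p i) ∧
  (∀ i, rk β 0 i = 0) ∧ (∀ i, rk β k i = size β i) ∧ ∑ i, size β i = k

/-- B1: compare `Pool/Agent/H88/VG/B1.lean`. -/
def S_B1 : Prop := ∀ (C K : Type) [Field C] [Field K] [Algebra K C] (k m n c : ℕ)
  (h : Fin c → MvPolynomial (Fin k × Fin n) K) (β : Fin k → Fin m) (p : Fin k),
  (∀ o, (Qs (C := C) h β p).r (fa β p o) = (St C h β p).r o) ∧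
  ∀ z ∈ (Qs (C := C) h β p).pts, (fun o => z (fa β p o)) ∈ (St C h β p).pts

/-- B2: compare `Pool/Agent/H88/VG/B2.lean`. -/
def S_B2 : Prop := ∀ (C K : Type) [Field C] [Field K] [Algebra K C] (k m n c : ℕ)
  (h : Fin c → MvPolynomial (Fin k × Fin n) K) (β : Fin k → Fin m) (p : Fin k), Saturated C h β →
  ∀ f : Mor (Qs h β p) (St C h β p), f.a = fa β p → f.BijOff (Bs h β p)

/-- B4a: compare `Pool/Agent/H88/VG/B4.lean`. -/
def S_B4a : Prop := ∀ (C K : Type) [Field C] [Field K] [Algebra K C] (k m n c : ℕ)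
  (h : Fin c → MvPolynomial (Fin k × Fin n) K) (β : Fin k → Fin m),
  (∀ z ∈ (St C h β k).pts, (fun i : Fin m => z (Sum.inl i)) ∈ (prodGrass C h β).pts) ∧
  ∀ f : Mor (St C h β k) (prodGrass C h β), (∀ i, f.a i = Sum.inl i) → f.BijOff ∅

/-- B4b -/
def S_B4b : Prop := ∀ (C K : Type) [Field C] [Field K] [Algebra K C] (k m n c : ℕ)
  (h : Fin c → MvPolynomial (Fin k × Fin n) K) (β : Fin k → Fin m),
  (∀ z ∈ (St C h β 0).pts, (fun p : Fin k => z (Sum.inr p)) ∈ (zeros C h).pts) ∧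
  ∀ f : Mor (St C h β 0) (zeros C h), (∀ p, f.a p = Sum.inr p) → f.BijOff ∅

/-- G2: compare `Pool/Agent/H88/VG/G2.lean`. -/
def S_G2 : Prop := ∀ (C : Type) [Field C] (n : ℕ) (Ω : Type v) [Field Ω]
  (T : Theory.{u, v} C n Ω) (K : Type) [Field K] [Algebra K C] (q : ℕ), T.Good K q →
  ∀ (k m c : ℕ) (h : Fin c → MvPolynomial (Fin k × Fin n) K) (β : Fin k → Fin m) (p : Fin k)
    (f : Mor (Qs h β p) (St C h β p)), f.a = fa β p → (Fl (C := C) h β p).IsClosed K →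
    (Qs (C := C) h β p).IsClosed K → ((Fl (C := C) h β p).subs none 1).IsClosed K →
    ((Qs h β p).sub (f.pre (Bs h β p))).IsClosed K →
    Function.Surjective (T.map (incl (Qs h β p) (f.pre (Bs h β p)) fun _ h => h.1))

end Pool.Agent.H88.VH
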