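import Pool.Agent.H88.VG.E1a
import Pool.Agent.H88.VG.E1b
import Pool.Agent.H88.VG.D2
import Pool.Agent.H88.VH.Stm

/-!
# Products of Grassmannians, E1: the intersection number
-/

set_option autoImplicit false

open MvPolynomial Pool.Agent.Y129.TA Pool.Agent.Y129.TB Pool.Agent.H88.VL
open Pool.Agent.H88.VG (GSet Mor incl down locus zeros value MultiHom inter Approximable Theory Rp)

universe u v

namespace Pool.Agent.H88.VH.E1

/-- the coefficient for one block -/
noncomputable def bc (n s e : ℕ) : ℤ :=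
  coeff (Finsupp.equivFunOnFinite.symm fun _ => n - 1) (Pool.Agent.H88.VG.weyl s e)

theorem bc_zero {n s e : ℕ} (hs : s ≤ n) (he : e ≠ s * (n - s)) : bc n s e = 0 := by
  refine (Pool.Agent.H88.VG.D2.main_b s e).coeff_eq_zero ?_
  rw [Finsupp.degree_eq_sum]
  intro h
  apply he
  have h1 : s * (n - 1) = e + s * (s - 1) := by
    rw [← h]
    simp
  rcases Nat.eq_zero_or_pos s with h0 | h0
  · subst h0
    omega
  · have h2 : s * (n - s) + s * (s - 1) = s * (n - 1) := by
      rw [← mul_add]
      congr 1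
      omega
    omega

theorem bc_ne {n s : ℕ} (hs : s ≤ n) : bc n s (s * (n - s)) ≠ 0 := by
  intro h
  have h1 := Pool.Agent.H88.VG.E1a.main s n _ hs rfl
  have h2 := Pool.Agent.H88.VG.E1b.main s n hs
  have h3 : ((coeff (Finsupp.equivFunOnFinite.symm fun _ => n - 1)
    (Pool.Agent.H88.VG.weyl s (s * (n - s))) : ℤ) : ℚ) = 0 := by
    exact_mod_cast h
  rw [h3] at h1
  have h4 : ((s.factorial : ℚ)) ≠ 0 := by exact_mod_cast Nat.factorial_ne_zero _
  have h5 : (((s * (n - s)).factorial : ℚ)) ≠ 0 := by exact_mod_cast Nat.factorial_ne_zero _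
  exact mul_ne_zero (mul_ne_zero h4 h5) h2 h1.symm

/-- the coefficients of a product of polynomials in disjoint sets of variables -/
theorem coeff_mul_disj {k : ℕ} (A : Fin k → Prop) [DecidablePred A] {P R : MvPolynomial (Fin k) ℤ}
    (hP : P ∈ supported ℤ {x | A x}) (hR : R ∈ supported ℤ {x | ¬ A x}) (t : Fin k →₀ ℕ) :
    coeff t (P * R) = coeff (t.filter A) P * coeff (t.filter fun x => ¬ A x) R := by
  classical
  rw [coeff_mul, Finset.sum_eq_single (t.filter A, t.filter fun x => ¬ A x)]
  · rintro ⟨a, b⟩ hab hne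
    have hab : a + b = t := Finset.HasAntidiagonal.mem_antidiagonal.1 hab
    change coeff a P * coeff b R = 0
    by_contra h0
    obtain ⟨ha, hb⟩ := mul_ne_zero_iff.1 h0
    apply hne
    have ha' : ∀ x, ¬ A x → a x = 0 := by
      intro x hx
      by_contra hc
      exact hx (mem_supported.1 hP (Finset.mem_coe.2 ((mem_vars_iff_mem_support x).2
        ⟨a, mem_support_iff.2 ha, Finsupp.mem_support_iff.2 hc⟩)))
    have hb' : ∀ x, A x → b x = 0 := by
      intro x hx
      by_contra hc
      exact (mem_supported.1 hR (Finset.mem_coe.2 ((mem_vars_iff_mem_support x).2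
        ⟨b, mem_support_iff.2 hb, Finsupp.mem_support_iff.2 hc⟩))) hx
    have e1 : a = t.filter A := by
      ext x
      rw [← hab, Finsupp.filter_apply]
      by_cases hx : A x
      · rw [if_pos hx, Finsupp.add_apply, hb' x hx, add_zero]
      · rw [if_neg hx, ha' x hx]
    have e2 : b = t.filter fun x => ¬ A x := by
      ext x
      rw [← hab, Finsupp.filter_apply]
      by_cases hx : A x
      · rw [if_neg (not_not.2 hx), hb' x hx]
      · rw [if_pos hx, Finsupp.add_apply, ha' x hx, zero_add]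
    rw [← e1, ← e2]
  · intro h
    exact absurd (Finset.HasAntidiagonal.mem_antidiagonal.2 (Finsupp.filter_add_filter_not t A)) h

/-- the coefficients of a product over the blocks -/
theorem coeff_prod {k m : ℕ} (β : Fin k → Fin m) (P : Fin m → MvPolynomial (Fin k) ℤ)
    (hP : ∀ i, P i ∈ supported ℤ {p | β p = i}) (t : Fin k →₀ ℕ) (s : Finset (Fin m)) :
    coeff (t.filter fun p => β p ∈ s) (∏ i ∈ s, P i) =
      ∏ i ∈ s, coeff (t.filter fun p => β p = i) (P i) := by
  classical
  induction s using Finset.induction_on with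
  | empty =>
    have h0 : (t.filter fun p => β p ∈ (∅ : Finset (Fin m))) = 0 := by
      ext x
      rw [Finsupp.filter_apply, if_neg (Finset.notMem_empty _)]
      rfl
    rw [h0]
    simp
  | insert i s hi ih =>
    rw [Finset.prod_insert hi, Finset.prod_insert hi]
    have hR : ∏ j ∈ s, P j ∈ supported ℤ {p | ¬ β p = i} := by
      refine Subalgebra.prod_mem _ fun j hj => ?_
      refine supported_mono ?_ (hP j)
      intro p hp hpi
      have hp' : β p = j := hp
      exact hi (by rw [← hpi, hp']; exact hj)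
    rw [coeff_mul_disj (fun p => β p = i) (hP i) hR, ← ih]
    congr 2
    · ext x
      rw [Finsupp.filter_apply, Finsupp.filter_apply, Finsupp.filter_apply]
      by_cases hx : β x = i
      · rw [if_pos hx, if_pos (by rw [hx]; exact Finset.mem_insert_self _ _), if_pos hx]
      · rw [if_neg hx, if_neg hx]
    · ext x
      rw [Finsupp.filter_apply, Finsupp.filter_apply, Finsupp.filter_apply]
      by_cases hx : β x = i
      · rw [if_neg (not_not.2 hx), if_neg (by rw [hx]; exact hi)]
      · rw [if_pos hx]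
        by_cases h2 : β x ∈ s
        · rw [if_pos (Finset.mem_insert_of_mem h2), if_pos h2]
        · rw [if_neg h2, if_neg]
          intro h3
          rcases Finset.mem_insert.1 h3 with h4 | h4
          · exact hx h4
          · exact h2 h4

/-- the block -/
def blk {k m : ℕ} (β : Fin k → Fin m) (i : Fin m) : Finset (Fin k) :=
  Finset.univ.filter fun p => β p = i

/-- the embedding of the block -/
def emb {k m : ℕ} (β : Fin k → Fin m) (i : Fin m) : Fin (size β i) ↪o Fin k :=
  (blk β i).orderEmbOfFin rfl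

theorem emb_map {k m : ℕ} (β : Fin k → Fin m) (i : Fin m) :
    Finset.map (emb β i).toEmbedding Finset.univ = blk β i :=
  Finset.map_orderEmbOfFin_univ _ _

theorem emb_mem {k m : ℕ} (β : Fin k → Fin m) (i : Fin m) (a : Fin (size β i)) :
    β (emb β i a) = i := by
  have := Finset.orderEmbOfFin_mem (blk β i) rfl a
  exact (Finset.mem_filter.1 this).2

theorem emb_Ioi {k m : ℕ} (β : Fin k → Fin m) (i : Fin m) (a : Fin (size β i)) :
    Finset.map (emb β i).toEmbedding (Finset.Ioi a) =
      (Finset.Ioi (emb β i a)).filter fun l => β l = β (emb β i a) := by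
  ext l
  rw [Finset.mem_map, Finset.mem_filter, Finset.mem_Ioi, emb_mem β i a]
  constructor
  · rintro ⟨b, hb, rfl⟩
    exact ⟨(emb β i).lt_iff_lt.2 (Finset.mem_Ioi.1 hb), emb_mem β i b⟩
  · rintro ⟨h1, h2⟩
    have h3 : l ∈ Finset.map (emb β i).toEmbedding Finset.univ := by
      rw [emb_map]
      exact Finset.mem_filter.2 ⟨Finset.mem_univ _, h2⟩
    obtain ⟨b, -, rfl⟩ := Finset.mem_map.1 h3
    exact ⟨b, Finset.mem_Ioi.2 ((emb β i).lt_iff_lt.1 h1), rfl⟩

/-- the polynomial of one block -/
noncomputable def Q {k m : ℕ} (β : Fin k → Fin m) (i : Fin m) (e : ℕ) : MvPolynomial (Fin k) ℤ :=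
  (∑ p ∈ blk β i, X p) ^ e *
    ∏ p ∈ blk β i, ∏ l ∈ (Finset.Ioi p).filter fun l => β l = β p, (X p - X l) ^ 2

theorem Q_eq {k m : ℕ} (β : Fin k → Fin m) (i : Fin m) (e : ℕ) :
    Q β i e = rename (emb β i) (Pool.Agent.H88.VG.weyl (size β i) e) := by
  unfold Q Pool.Agent.H88.VG.weyl
  rw [map_mul, map_pow, map_sum, map_prod, ← emb_map, Finset.sum_map, Finset.prod_map]
  congr 1
  · congr 1
    refine Finset.sum_congr rfl fun a _ => ?_
    rw [rename_X]
    rfl
  · refine Finset.prod_congr rfl fun a _ => ?_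
    rw [map_prod]
    have h1 := emb_Ioi β i a
    change ∏ l ∈ (Finset.Ioi (emb β i a)).filter (fun l => β l = β (emb β i a)),
      (X (emb β i a) - X l) ^ 2 = _
    rw [← h1, Finset.prod_map]
    refine Finset.prod_congr rfl fun b _ => ?_
    rw [map_pow, map_sub, rename_X, rename_X]
    rfl

theorem Q_supported {k m : ℕ} (β : Fin k → Fin m) (i : Fin m) (e : ℕ) :
    Q β i e ∈ supported ℤ {p | β p = i} := by
  classical
  rw [Q_eq, mem_supported]
  intro x hx
  obtain ⟨a, -, rfl⟩ := mem_vars_rename _ _ (Finset.mem_coe.1 hx)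
  exact emb_mem β i a

theorem Q_coeff {k m : ℕ} (β : Fin k → Fin m) (i : Fin m) (n e : ℕ) :
    coeff ((Finsupp.equivFunOnFinite.symm fun _ => n - 1 : Fin k →₀ ℕ).filter fun p => β p = i)
      (Q β i e) = bc n (size β i) e := by
  classical
  have h1 : (Finsupp.equivFunOnFinite.symm fun _ => n - 1 : Fin k →₀ ℕ).filter (fun p => β p = i) =
      (Finsupp.equivFunOnFinite.symm fun _ => n - 1 : Fin (size β i) →₀ ℕ).mapDomain (emb β i) := by
    ext p
    rw [Finsupp.filter_apply]
    by_cases hp : β p = i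
    · rw [if_pos hp]
      have h3 : p ∈ Finset.map (emb β i).toEmbedding Finset.univ := by
        rw [emb_map]
        exact Finset.mem_filter.2 ⟨Finset.mem_univ _, hp⟩
      obtain ⟨b, -, rfl⟩ := Finset.mem_map.1 h3
      exact (Finsupp.mapDomain_apply (emb β i).injective
        (Finsupp.equivFunOnFinite.symm fun _ => n - 1 : Fin (size β i) →₀ ℕ) b).symm
    · rw [if_neg hp, Finsupp.mapDomain_of_notMem_range]
      rintro ⟨b, rfl⟩
      exact hp (emb_mem β i b)
  rw [Q_eq, h1, coeff_rename_mapDomain _ (emb β i).injective]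
  rfl

theorem coeff_blocks {k m : ℕ} (β : Fin k → Fin m) (n : ℕ) (e : Fin m → ℕ) :
    coeff (Finsupp.equivFunOnFinite.symm fun _ => n - 1) (∏ i, Q β i (e i)) =
      ∏ i, bc n (size β i) (e i) := by
  have h := coeff_prod β (fun i => Q β i (e i)) (fun i => Q_supported β i (e i))
    (Finsupp.equivFunOnFinite.symm fun _ => n - 1) Finset.univ
  have h0 : ((Finsupp.equivFunOnFinite.symm fun _ => n - 1 : Fin k →₀ ℕ).filter
      fun p => β p ∈ (Finset.univ : Finset (Fin m))) = Finsupp.equivFunOnFinite.symm fun _ => n - 1 := by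
    ext x
    rw [Finsupp.filter_apply, if_pos (Finset.mem_univ _)]
  rw [h0] at h
  rw [h]
  exact Finset.prod_congr rfl fun i _ => Q_coeff β i n (e i)

theorem main : S_E1 := by
  classical
  intro k m n c d β a hs hpos
  -- the coefficients of the linear forms
  set b : Fin c ⊕ Fin d → Fin m → ℤ := fun x i => Sum.elim (fun j => (a j i : ℤ)) (fun _ => 1) x with hb
  have hb0 : ∀ x i, 0 ≤ b x i := by
    rintro (j | j) i
    · exact Int.natCast_nonneg _
    · exact zero_le_one
  set σ : Fin m → MvPolynomial (Fin k) ℤ := fun i => ∑ p ∈ blk β i, X p with hσ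
  set Δ : Fin m → MvPolynomial (Fin k) ℤ := fun i =>
    ∏ p ∈ blk β i, ∏ l ∈ (Finset.Ioi p).filter fun l => β l = β p, (X p - X l) ^ 2 with hΔ
  have hQ : ∀ i e, Q β i e = σ i ^ e * Δ i := fun i e => rfl
  have hlin : ∀ g : Fin m → ℤ, (∑ p, C (g (β p)) * X p : MvPolynomial (Fin k) ℤ) =
      ∑ i, C (g i) * σ i := by
    intro g
    rw [← Finset.sum_fiberwise Finset.univ β]
    refine Finset.sum_congr rfl fun i _ => ?_
    rw [hσ, Finset.mul_sum]
    refine Finset.sum_congr rfl fun p hp => ?_
    rw [(Finset.mem_filter.1 hp).2]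
  have hD : (∏ p, ∏ l ∈ (Finset.Ioi p).filter fun l => β l = β p,
      ((X p : MvPolynomial (Fin k) ℤ) - X l) ^ 2) = ∏ i, Δ i :=
    (Finset.prod_fiberwise Finset.univ β _).symm
  have hP : weyl β (fun _ => 1) d * (∏ j, ∑ p, C ((a j (β p) : ℕ) : ℤ) * X p) =
      (∏ x, ∑ i, C (b x i) * σ i) * ∏ i, Δ i := by
    rw [Fintype.prod_sum_type]
    unfold weyl
    rw [hD, hlin (fun _ => 1)]
    have h1 : ∀ j, (∑ p, C ((a j (β p) : ℕ) : ℤ) * X p : MvPolynomial (Fin k) ℤ) =
        ∑ i, C (b (Sum.inl j) i) * σ i := fun j => hlin fun i => (a j i : ℤ)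
    have h2 : ∀ j : Fin d, (∑ i, C (b (Sum.inr j) i) * σ i : MvPolynomial (Fin k) ℤ) =
        ∑ i, C 1 * σ i := fun j => rfl
    rw [Finset.prod_congr rfl fun j _ => h1 j, Finset.prod_congr rfl fun j _ => h2 j]
    rw [Finset.prod_const, Finset.card_univ, Fintype.card_fin]
    ring
  have hexp : (∏ x, ∑ i, C (b x i) * σ i) * ∏ i, Δ i =
      ∑ τ : Fin c ⊕ Fin d → Fin m, C (∏ x, b x (τ x)) *
        ∏ i, Q β i (Finset.univ.filter fun x => τ x = i).card := by
    rw [Finset.prod_univ_sum, Fintype.piFinset_univ, Finset.sum_mul]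
    refine Finset.sum_congr rfl fun τ _ => ?_
    rw [Finset.prod_mul_distrib, map_prod, mul_assoc]
    congr 1
    rw [← Finset.prod_fiberwise Finset.univ τ, ← Finset.prod_mul_distrib]
    refine Finset.prod_congr rfl fun i _ => ?_
    rw [hQ]
    congr 1
    rw [Finset.prod_congr rfl fun x hx => by rw [(Finset.mem_filter.1 hx).2], Finset.prod_const]
  have hfin : inter n (fun j p => a j (β p)) (weyl β (fun _ => 1) d) =
      ∑ τ : Fin c ⊕ Fin d → Fin m, (∏ x, b x (τ x)) *
        ∏ i, bc n (size β i) (Finset.univ.filter fun x => τ x = i).card := by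
    unfold inter
    rw [hP, hexp, coeff_sum]
    refine Finset.sum_congr rfl fun τ _ => ?_
    rw [coeff_C_mul, coeff_blocks]
  set κ : ℤ := ∏ i, bc n (size β i) (size β i * (n - size β i)) with hκ
  have hκ0 : κ ≠ 0 := Finset.prod_ne_zero_iff.2 fun i _ => bc_ne (hs i)
  have hterm : ∀ τ : Fin c ⊕ Fin d → Fin m, (∏ x, b x (τ x)) *
        ∏ i, bc n (size β i) (Finset.univ.filter fun x => τ x = i).card =
      (if ∀ i, (Finset.univ.filter fun x => τ x = i).card = size β i * (n - size β i) then
        ∏ x, b x (τ x) else 0) * κ := by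
    intro τ
    split_ifs with h
    · congr 1
      exact Finset.prod_congr rfl fun i _ => by rw [h i]
    · push Not at h
      obtain ⟨i, hi⟩ := h
      rw [Finset.prod_eq_zero (Finset.mem_univ i) (bc_zero (hs i) hi), mul_zero, zero_mul]
  rw [hfin, Finset.sum_congr rfl fun τ _ => hterm τ, ← Finset.sum_mul]
  refine mul_ne_zero (ne_of_gt ?_) hκ0
  obtain ⟨τ, h1, h2⟩ := hpos
  refine Finset.sum_pos' (fun τ' _ => ?_) ⟨τ, Finset.mem_univ _, ?_⟩
  · split_ifs
    · exact Finset.prod_nonneg fun x _ => hb0 x _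
    · exact le_refl _
  · rw [if_pos h2]
    refine Finset.prod_pos ?_
    rintro (j | j) -
    · exact Int.natCast_pos.2 (h1 j)
    · exact one_pos

end Pool.Agent.H88.VH.E1
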