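import Pool.Agent.H88.VH.Ind
import Pool.Agent.H88.VG.Fin

/-!
# Products of Grassmannians: the end of the proof
-/

set_option autoImplicit false

open MvPolynomial Pool.Agent.Y129.TA Pool.Agent.Y129.TB Pool.Agent.H88.VL
open Pool.Agent.H88.VG (GSet Mor incl down locus zeros value MultiHom inter Approximable Theory Rp cz
  map_cz cz_zero cz_above map_aeval Tate tate_chern coe_prod Linked S_A1 S_A2 S_A3 S_A4 S_A5 S_A6 S_C2
  S_C3 S_D1 S_D2 S_F1 S_G1 S_G3 S_G4)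

universe u v

namespace Pool.Agent.H88.VH

/-- all steps -/
structure Steps : Prop where
  a1 : S_A1.{u, v}
  a2 : S_A2
  a3 : S_A3
  a4 : S_A4
  a5 : S_A5
  a6 : S_A6
  b0 : S_B0
  b1 : S_B1
  b2 : S_B2
  b4a : S_B4a
  b4b : S_B4b
  c1 : S_C1.{u}
  c2 : S_C2.{u}
  c3 : S_C3.{u}
  d1 : S_D1
  d2 : S_D2.{u, v}
  d3 : S_D3
  d4 : S_D4.{u}
  f1 : S_F1
  g1 : S_G1.{u, v}
  g2 : S_G2.{u, v}
  g3 : S_G3.{u, v}
  g4 : S_G4.{u, v}
  w1b : S_W1b.{u, v}

variable {C : Type} [Field C] {n k m c : ℕ} {Ω : Type v} [Field Ω] [CharZero Ω]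
  {T : Theory.{u, v} C n Ω} {K : Type} [Field K] [Algebra K C] {q : ℕ}
  {h : Fin c → MvPolynomial (Fin k × Fin n) K} {β : Fin k → Fin m}

theorem pure_of (W : Steps.{u, v}) [Infinite K] (hq : 1 < q) (hT : T.Good K q)
    (sat : Saturated C h β) {a : Fin c → Fin k → ℕ} {w : Fin m → ℤ} {d : ℕ}
    (hI : inter n a (weyl β w d) ≠ 0) (hP : (T.coh (prodGrass C h β)).IsPoincare d)
    (hL : Linked T q h a (d + ∑ i, size β i * (size β i - 1))) (i : ℕ) :
    (T.coh (prodGrass C h β)).MWPure q i := by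
  by_cases hi : i ≤ 2 * d
  swap
  · exact W.w1b Ω q i _ (hP.above i (by omega))
  have S := setup_of (C := C) W.a2 W.a5 W.a6 h β
  obtain ⟨-, -, z0, zk, -⟩ := W.b0 k m β
  obtain ⟨Φ, Φ2, e, he, p1, p2, p3, p4, p5⟩ := all hT W.g3 W.c1 W.c2 W.c3 W.a3 W.b0 W.b1 W.b2 W.g1
    W.g2 S sat w d
  have he' : 2 * e = ∑ i, size β i * (size β i - 1) := by
    have e1 : deg β 0 = 0 := by
      unfold deg
      exact Finset.sum_eq_zero fun i _ => by rw [z0, zero_mul]
    have e2 : deg β k = ∑ i, size β i * (size β i - 1) := by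
      unfold deg
      exact Finset.sum_congr rfl fun i _ => by rw [zk]
    rw [e1, e2, add_zero] at he
    exact he
  have hD3 := W.d3 k m d β w
  rw [← he'] at hL hD3
  obtain ⟨A, s, t, μ, hA, hMW, hs, hsF, hsN, htN, hμ, ht⟩ := hL
  have cX : (prodGrass C h β).IsClosed K := W.a2 C K k n c h _ _ _
  have cZ : (zeros C h).IsClosed K := W.a2 C K k n c h _ _ _
  let gX : Mor (St C h β k) (prodGrass C h β) := ⟨Sum.inl, zk, (W.b4a C K k m n c h β).1⟩
  have rZ : ∀ p : Fin k, strk β 0 (Sum.inr p) = 1 := fun p => by simp [strk]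
  let gZ : Mor (St C h β 0) (zeros C h) := ⟨Sum.inr, rZ, (W.b4b C K k m n c h β).1⟩
  obtain ⟨bX, grX⟩ := W.g4 C n Ω T K q hT W.a3 W.a4 _ _ gX (S.cS k) cX
    ((W.b4a C K k m n c h β).2 gX fun _ => rfl)
  obtain ⟨bZ, grZ⟩ := W.g4 C n Ω T K q hT W.a3 W.a4 _ _ gZ (S.cS 0) cZ
    ((W.b4b C K k m n c h β).2 gZ fun _ => rfl)
  let δ : (T.coh (zeros C h)).H ≃ₐ[Ω] (T.coh (St C h β 0)).H := AlgEquiv.ofBijective (T.map gZ) bZ
  have hδ : ∀ x, T.map gZ (δ.symm x) = x := fun x => δ.apply_symm_apply x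
  have lX := hT.isLocal cX
  -- the map and the functional
  let f : (T.coh (prodGrass C h β)).H →ₗ[Ω] A.H :=
    s.toLinearMap ∘ₗ δ.symm.toLinearMap ∘ₗ Φ ∘ₗ (T.map gX).toLinearMap
  have hf : ∀ x, f x = s (δ.symm (Φ (T.map gX x))) := fun _ => rfl
  let τ : (T.coh (prodGrass C h β)).H →ₗ[Ω] Ω :=
    t ∘ₗ s.toLinearMap ∘ₗ δ.symm.toLinearMap ∘ₗ Φ2 ∘ₗ (T.map gX).toLinearMap
  have hτ : ∀ x, τ x = t (s (δ.symm (Φ2 (T.map gX x)))) := fun _ => rfl
  -- the value of `τ` on the power of the combination of the first Chern classes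
  set b : (T.coh (prodGrass C h β)).H := ∑ i, (w i : Ω) • T.chern (prodGrass C h β) i 1 with hb
  have key : τ (b ^ d) ≠ 0 := by
    have e0 : T.map gX b = ∑ i, (w i : Ω) • T.chern (St C h β k) (Sum.inl i) 1 := by
      rw [hb, map_sum]
      refine Finset.sum_congr rfl fun i _ => ?_
      rw [map_smul]
      exact congrArg _ (hT.map_chern gX (S.cS k) cX i 1)
    have e1 : T.map gX (b ^ d) = (∑ i, (w i : Ω) • T.chern (St C h β k) (Sum.inl i) 1) ^ d :=
      (map_pow (T.map gX) _ d).trans (congrArg (fun z => z ^ d) e0)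
    have e2 := p5 (fun i => cz hT W.g3 (S.cS 0) (Sum.inl i))
      (fun i => cz hT W.g3 (S.cS 0) (Sum.inr i) 1) (fun i a => rfl) fun i => rfl
    have c1z : ∀ i, cz hT W.g3 (S.cS 0) (Sum.inl i) 1 = 0 := fun i =>
      cz_above hT W.g3 (S.cS 0) (lt_of_eq_of_lt (z0 i) Nat.zero_lt_one)
    rw [W.d4 _ k m d β w _ _ (fun i => cz_zero hT W.g3 (S.cS 0) (Sum.inl i)) c1z] at e2
    have e3 := map_aeval (T.map gZ) (fun i => cz hT W.g3 cZ i 1)
      (fun i => cz hT W.g3 (S.cS 0) (Sum.inr i) 1) (fun i => map_cz hT W.g3 gZ (S.cS 0) cZ i 1)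
      (weyl β w d)
    have e4 : δ.symm (Φ2 (T.map gX (b ^ d))) =
        ((aeval (fun i => cz hT W.g3 cZ i 1) (weyl β w d) :
          Subalgebra.center Ω (T.coh (zeros C h)).H) : (T.coh (zeros C h)).H) :=
      (congrArg (fun z => δ.symm (Φ2 z)) e1).trans ((congrArg δ.symm e2).trans
        ((congrArg δ.symm e3.symm).trans (δ.symm_apply_apply _)))
    rw [hτ, e4]
    have e5 := W.d2 Ω (Subalgebra.center Ω (T.coh (zeros C h)).H) k n c (d + 2 * e) a
      (fun i => cz hT W.g3 cZ i 1)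
      (t ∘ₗ s.toLinearMap ∘ₗ (Subalgebra.center Ω (T.coh (zeros C h)).H).val.toLinearMap) μ
      (fun e' he' => by
        rw [← ht e' he', ← coe_prod hT W.g3 cZ (fun i => i) e']
        rfl) (weyl β w d) hD3
    have e6 : t (s ((aeval (fun i => cz hT W.g3 cZ i 1) (weyl β w d) :
          Subalgebra.center Ω (T.coh (zeros C h)).H) : (T.coh (zeros C h)).H)) =
        μ * (inter n a (weyl β w d) : ℤ) := e5
    rw [e6]
    exact mul_ne_zero hμ (Int.cast_ne_zero.2 hI)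
  have hb2 : Tate (T.coh (prodGrass C h β)) q 1 b := by
    refine Tate.sum _ fun i _ => ?_
    obtain ⟨t1, t2, t3⟩ := tate_chern hT cX i 1
    exact ⟨Submodule.smul_mem _ _ t1, by rw [map_smul, t2, smul_comm], by
      rw [map_smul, t3, smul_zero]⟩
  refine W.a1 Ω q d e i (T.coh (prodGrass C h β)) A f t τ hq lX hA hP hi ?_ ?_ ?_ htN ?_ ?_
    (hMW (i + 2 * e))
  · intro j x hx
    rw [hf]
    refine hs _ _ (grZ _ _ ?_)
    rw [hδ]
    exact p1 _ _ (hT.map_mem gX (S.cS k) cX hx)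
  · intro x
    rw [hf, hf, ← hsF, ← map_smul, ← map_smul]
    congr 1
    apply bZ.1
    rw [hδ, hT.map_F gZ (S.cS 0) cZ, hδ, p2, hT.map_F gX (S.cS k) cX]
  · intro x
    rw [hf, hf, ← hsN]
    congr 1
    apply bZ.1
    rw [hδ, hT.map_N gZ (S.cS 0) cZ, hδ, p3, hT.map_N gX (S.cS k) cX]
  · intro x hx hne h0
    obtain ⟨ω, hω, -, hall⟩ := hP.top
    obtain ⟨r, rfl⟩ := hall x hx
    have hb3 : b ^ d ∈ (T.coh (prodGrass C h β)).gr (2 * d) := by
      have := (hb2.pow lX d).1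
      rwa [one_mul] at this
    obtain ⟨r', hr'⟩ := hall _ hb3
    have hr : r ≠ 0 := fun h => hne (by rw [h, zero_smul])
    rw [map_smul, smul_eq_mul] at h0
    rcases mul_eq_zero.1 h0 with h1 | h1
    · exact hr h1
    · apply key
      rw [hr', map_smul, h1, smul_zero]
  · intro x hx y hy
    rw [hf, hf, hτ, ← map_mul s, ← map_mul δ.symm, p4, ← map_mul (T.map gX)]

theorem main_of (W : Steps.{u, v}) {p : ℕ} [Fact p.Prime] {F E : Type} [Field F] [CharP F p]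
    [Field E] [Algebra E F] [IsAlgClosed F] {𝓣 : Tilting p C F} (hB : BaseField 𝓣 K E) (hq : 1 < q)
    (hT : T.Ladic K q 𝓣 E) {a : Fin c → Fin k → ℕ} {d : ℕ} (hn : 0 < n)
    (hh : ∀ j, MultiHom (h j) (a j)) (sat : Saturated C h β) (hs : ∀ i, size β i ≤ n)
    (hd : d + c = grDim n β) {w : Fin m → ℤ}
    (hI : inter n a (weyl β w d) ≠ 0) (hP : (T.coh (prodGrass C h β)).IsPoincare d) (i : ℕ) :
    (T.coh (prodGrass C h β)).MWPure q i := by
  have hinf : Infinite K := W.f1 p C F K 𝓣.toTiltPair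
  obtain ⟨-, -, -, -, hk⟩ := W.b0 k m β
  have e : d + ∑ i, size β i * (size β i - 1) + c = k * (n - 1) := by
    have e1 : ∑ i, size β i * (size β i - 1) + grDim n β = k * (n - 1) := by
      rw [grDim, ← Finset.sum_add_distrib]
      conv_rhs => rw [← hk, Finset.sum_mul]
      refine Finset.sum_congr rfl fun i _ => ?_
      obtain ⟨l, hl⟩ := Nat.exists_eq_add_of_le (hs i)
      rw [← mul_add]
      rcases Nat.eq_zero_or_pos (size β i) with h0 | h0
      · rw [h0, zero_mul, zero_mul]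
      · congr 1
        omega
    rw [← hd] at e1
    omega
  exact pure_of W hq hT.good sat hI hP
    (hT.linked h a _ hn hh e (W.d1 p C F K E 𝓣 hB k n c h a hh)) i

end Pool.Agent.H88.VH
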