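import Pool.Agent.H88.VH.Stm

/-!
# VH-G2: surjectivity of the restriction
-/

set_option autoImplicit false

open MvPolynomial Pool.Agent.Y129.TA Pool.Agent.Y129.TB Pool.Agent.H88.VL
open Pool.Agent.H88.VG (GSet Mor incl down locus zeros value MultiHom inter Approximable Theory Rp)

universe u v

namespace Pool.Agent.H88.VH.G2

theorem main : S_G2.{u, v} := by
  intro C _ n Ω _ T K _ _ q hT k m c h β p f hf cFl cQ cV cP x
  have hPV : ∀ z ∈ ((Qs (C := C) h β p).sub (f.pre (Bs h β p))).pts,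
      z ∈ ((Fl (C := C) h β p).subs none 1).pts := by
    rintro z ⟨⟨h1, h2, h3⟩, h4, h5⟩
    refine ⟨h1, h2, ?_⟩
    have e1 : f.app z (Sum.inr p) = z none := by
      change z (f.a (Sum.inr p)) = z none
      rw [hf]
      exact congrArg z (if_pos rfl)
    have e2 : f.app z (Sum.inl (β p)) = z (some none) := by
      change z (f.a (Sum.inl (β p))) = z (some none)
      rw [hf]
      exact congrArg z (if_pos rfl)
    rw [e1, e2] at h5
    exact h5
  have hVP : ∀ z ∈ ((Fl (C := C) h β p).subs none 1).pts,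
      z ∈ ((Qs (C := C) h β p).sub (f.pre (Bs h β p))).pts := by
    rintro z ⟨h1, h2, h3⟩
    have hQ : z ∈ (Qs (C := C) h β p).pts := ⟨h1, h2, h3.trans h1.2.2⟩
    refine ⟨hQ, f.maps z hQ, ?_⟩
    have e1 : f.app z (Sum.inr p) = z none := by
      change z (f.a (Sum.inr p)) = z none
      rw [hf]
      exact congrArg z (if_pos rfl)
    have e2 : f.app z (Sum.inl (β p)) = z (some none) := by
      change z (f.a (Sum.inl (β p))) = z (some none)
      rw [hf]
      exact congrArg z (if_pos rfl)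
    rw [e1, e2]
    exact h3
  let P : GSet C n := (Qs (C := C) h β p).sub (f.pre (Bs h β p))
  let V : GSet C n := (Fl (C := C) h β p).subs none 1
  let a₁ : Mor P V := ⟨fun j => j, fun _ => rfl, fun z hz => hPV z hz⟩
  let a₂ : Mor V P := ⟨fun j => j, fun _ => rfl, fun z hz => hVP z hz⟩
  let ι : Mor P (Qs (C := C) h β p) := incl (Qs h β p) (f.pre (Bs h β p)) fun _ h => h.1
  let d₁ : Mor V (Fl (C := C) h β p) := down (Fl (C := C) h β p) none 1
  let d₂ : Mor (Qs (C := C) h β p) (Fl (C := C) h β p) := down (Fl (C := C) h β p) (some (Sum.inl (β p))) 1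
  have hbd : ∃ a : ℕ → (T.coh (Fl (C := C) h β p)).H, T.map a₂ x =
      ∑ i ∈ Finset.range ((Fl (C := C) h β p).r none), T.map d₁ (a i) * T.chern V none 1 ^ i :=
    hT.bundles (X := Fl (C := C) h β p) none cFl cV (T.map a₂ x)
  obtain ⟨a, ha⟩ := hbd
  refine ⟨∑ i ∈ Finset.range ((Fl (C := C) h β p).r none),
    T.map d₂ (a i) * T.chern (Qs (C := C) h β p) none 1 ^ i, ?_⟩
  have hx : T.map a₁ (T.map a₂ x) = x :=
    ((hT.map_comp a₂ a₁ cP cV cP x).symm.trans
      (hT.map_congr (a₂.comp a₁) (Mor.id P) cP cP (fun _ _ => rfl) x)).trans (hT.map_id cP x)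
  change T.map ι _ = x
  rw [← hx, ha, map_sum, map_sum]
  refine Finset.sum_congr rfl fun i _ => ?_
  rw [map_mul, map_mul, map_pow, map_pow]
  have e1 : T.map a₁ (T.chern V none 1) = T.chern P none 1 := hT.map_chern a₁ cP cV none 1
  have e2 : T.map ι (T.chern (Qs (C := C) h β p) none 1) = T.chern P none 1 :=
    hT.map_chern ι cP cQ none 1
  have e3 : T.map a₁ (T.map d₁ (a i)) = T.map ι (T.map d₂ (a i)) :=
    ((hT.map_comp d₁ a₁ cP cV cFl (a i)).symm.trans
      (hT.map_congr (d₁.comp a₁) (d₂.comp ι) cP cFl (fun _ _ => rfl) (a i))).trans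
      (hT.map_comp d₂ ι cP cQ cFl (a i))
  rw [e1, e2, e3]

end Pool.Agent.H88.VH.G2
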