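import Pool.Agent.H88.VH.Stm
import Pool.Agent.H88.VG.Ind

/-!
# Products of Grassmannians: the induction
-/

set_option autoImplicit false

open MvPolynomial Pool.Agent.Y129.TA Pool.Agent.Y129.TB Pool.Agent.H88.VL
open Pool.Agent.H88.VG (GSet Mor incl down locus zeros value MultiHom inter Approximable Theory Rp cz
  map_cz cz_zero cz_above incidence corank map_aeval map_cRp map_Rp Tate tate_Rp tate_chern
  subs_closed S_A2 S_A3 S_A4 S_A5 S_A6 S_C2 S_C3 S_G1 S_G3)

universe u v

namespace Pool.Agent.H88.VH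

section nat

variable {R S : Type*} [CommRing R] [CommRing S] (φ : R →+* S) {k m : ℕ} {β : Fin k → Fin m}
  {w : Fin m → ℤ}

lemma map_Th (d s : ℕ) (c : Fin m → ℕ → R) (x : Fin k → R) :
    φ (Th β w d s c x) = Th β w d s (fun i a => φ (c i a)) fun i => φ (x i) := by
  simp [Th, map_Rp, map_sum, map_prod]

lemma Th_congr {d s : ℕ} {c : Fin m → ℕ → R} {x y : Fin k → R}
    (h : ∀ i : Fin k, s ≤ i.val → x i = y i) : Th β w d s c x = Th β w d s c y := by
  unfold Th
  congr 1
  · congr 1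
    · congr 2
      exact Finset.sum_congr rfl fun i hi => by rw [h i (Finset.mem_filter.1 hi).2]
    · exact Finset.prod_congr rfl fun i hi => by rw [h i (Finset.mem_filter.1 hi).2]
  · refine Finset.prod_congr rfl fun i hi => Finset.prod_congr rfl fun j hj => ?_
    have h1 := (Finset.mem_filter.1 hi).2
    have h2 := Finset.mem_Ioi.1 (Finset.mem_filter.1 hj).1
    rw [h i h1, h j (h1.trans (le_of_lt h2))]

lemma Th_zero {d : ℕ} (p : Fin k) {c : Fin m → ℕ → R} {x : Fin k → R}
    (h : Rp (rk β p (β p)) (c (β p)) (x p) = 0) : Th β w d p c x = 0 := by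
  unfold Th
  rw [Finset.prod_eq_zero (i := p) (by simp) (by rw [h]; ring)]
  ring

end nat

section cen

variable {Ω : Type*} [Field Ω] {H₁ H₂ : Type*} [Ring H₁] [Algebra Ω H₁] [Ring H₂] [Algebra Ω H₂]
  {k m : ℕ} (β : Fin k → Fin m) (w : Fin m → ℤ)

lemma map_cTh (ψ : H₁ →ₐ[Ω] H₂) (d s : ℕ) {c : Fin m → ℕ → Subalgebra.center Ω H₁}
    {c' : Fin m → ℕ → Subalgebra.center Ω H₂} {x : Fin k → Subalgebra.center Ω H₁}
    {x' : Fin k → Subalgebra.center Ω H₂} (hc : ∀ i a, ψ (c i a) = c' i a)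
    (hx : ∀ i, ψ (x i) = x' i) :
    ψ ((Th β w d s c x : Subalgebra.center Ω H₁) : H₁) =
      ((Th β w d s c' x' : Subalgebra.center Ω H₂) : H₂) := by
  have key := map_aeval ψ (fun o : (Fin m × ℕ) ⊕ Fin k => Sum.elim (fun t => c t.1 t.2) x o)
    (fun o => Sum.elim (fun t => c' t.1 t.2) x' o)
    (by rintro (a | i); exacts [hc _ _, hx i])
    (Th β w d s (fun i a => X (Sum.inl (i, a))) fun i => X (Sum.inr i))
  have e1 := map_Th (aeval (R := ℤ) (fun o : (Fin m × ℕ) ⊕ Fin k =>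
    Sum.elim (fun t => c t.1 t.2) x o)).toRingHom (β := β) (w := w) d s
    (fun i a => X (Sum.inl (i, a))) (fun i => X (Sum.inr i))
  have e2 := map_Th (aeval (R := ℤ) (fun o : (Fin m × ℕ) ⊕ Fin k =>
    Sum.elim (fun t => c' t.1 t.2) x' o)).toRingHom (β := β) (w := w) d s
    (fun i a => X (Sum.inl (i, a))) (fun i => X (Sum.inr i))
  simp only [AlgHom.toRingHom_eq_coe, RingHom.coe_coe, aeval_X, Sum.elim_inl, Sum.elim_inr] at e1 e2
  rw [e1, e2] at key
  exact key

end cen

/-! ### The induction -/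

/-- the sets are closed -/
structure Setup {C : Type} [Field C] {n k m c : ℕ} (K : Type) [Field K] [Algebra K C]
    (h : Fin c → MvPolynomial (Fin k × Fin n) K) (β : Fin k → Fin m) : Prop where
  cS : ∀ s, (St C h β s).IsClosed K
  cF : ∀ p : Fin k, (Fl (C := C) h β p).IsClosed K
  cF1 : ∀ p : Fin k, ((Fl (C := C) h β p).subs none 1).IsClosed K
  cQ : ∀ p : Fin k, (Qs (C := C) h β p).IsClosed K
  cB : ∀ p : Fin k, ((St C h β p).sub (Bs h β p)).IsClosed K

theorem setup_of (a2 : S_A2) (a5 : S_A5) (a6 : S_A6) {C K : Type} [Field C] [Field K]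
    [Algebra K C] [Infinite K] {n k m c : ℕ} (h : Fin c → MvPolynomial (Fin k × Fin n) K)
    (β : Fin k → Fin m) : Setup (C := C) K h β := by
  have cS : ∀ s, (St C h β s).IsClosed K := fun s => a2 C K k n c h _ _ _
  have cF : ∀ p, (Fl (C := C) h β p).IsClosed K := fun p =>
    subs_closed a5 a6 (cS (p + 1)) (Sum.inl (β p)) (rk β p (β p))
  exact
    { cS := cS
      cF := cF
      cF1 := fun p => subs_closed a5 a6 (cF p) none 1
      cQ := fun p => subs_closed a5 a6 (cF p) (some (Sum.inl (β p))) 1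
      cB := fun p => a6 C K n (St C h β p) (Sum.inr p) (Sum.inl (β p)) (cS p) }

variable {C : Type} [Field C] {n k m c : ℕ} {Ω : Type v} [Field Ω] [CharZero Ω]
  {T : Theory.{u, v} C n Ω} {K : Type} [Field K] [Algebra K C] {q : ℕ}
  {h : Fin c → MvPolynomial (Fin k × Fin n) K} {β : Fin k → Fin m}

/-- the degree of the classes which remain -/
def deg (β : Fin k → Fin m) (s : ℕ) : ℕ := ∑ i, rk β s i * (rk β s i - 1)

/-- The statement proved by induction. -/
def Pst (T : Theory.{u, v} C n Ω) (q : ℕ) (h : Fin c → MvPolynomial (Fin k × Fin n) K)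
    (β : Fin k → Fin m) (w : Fin m → ℤ) (d s : ℕ) : Prop :=
  ∃ (Φ Φ2 : (T.coh (St C h β k)).H →ₗ[Ω] (T.coh (St C h β s)).H) (e : ℕ),
    2 * e + deg β s = deg β k ∧
    (∀ j x, x ∈ (T.coh (St C h β k)).gr j → Φ x ∈ (T.coh (St C h β s)).gr (j + 2 * e)) ∧
    (∀ x, (T.coh (St C h β s)).F (Φ x) = (q : Ω) ^ e • Φ ((T.coh (St C h β k)).F x)) ∧
    (∀ x, (T.coh (St C h β s)).N (Φ x) = Φ ((T.coh (St C h β k)).N x)) ∧
    (∀ x y, Φ x * Φ y = Φ2 (x * y)) ∧
    ∀ (c : Fin m → ℕ → Subalgebra.center Ω (T.coh (St C h β s)).H)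
      (x : Fin k → Subalgebra.center Ω (T.coh (St C h β s)).H),
      (∀ i a, (c i a : (T.coh (St C h β s)).H) = T.chern (St C h β s) (Sum.inl i) a) →
      (∀ p, (x p : (T.coh (St C h β s)).H) = T.chern (St C h β s) (Sum.inr p) 1) →
      Φ2 ((∑ i, (w i : Ω) • T.chern (St C h β k) (Sum.inl i) 1) ^ d) =
        ((Th β w d s c x : Subalgebra.center Ω (T.coh (St C h β s)).H) : (T.coh (St C h β s)).H)

lemma base_case (w : Fin m → ℤ) (d : ℕ) : Pst T q h β w d k := by
  refine ⟨LinearMap.id, LinearMap.id, 0, by omega, fun j x hx => hx, fun x => by simp,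
    fun x => rfl, fun x y => rfl, fun c x hc hx => ?_⟩
  have e : (Finset.univ.filter fun i : Fin k => k ≤ i.val) = ∅ := by
    apply Finset.filter_false_of_mem
    intro i _
    exact not_le.2 i.2
  unfold Th
  rw [e, Finset.sum_empty, Finset.prod_empty, Finset.prod_empty, add_zero, mul_one, mul_one,
    LinearMap.id_apply]
  have e1 : ((∑ i, (w i : Subalgebra.center Ω (T.coh (St C h β k)).H) * c i 1 :
      Subalgebra.center Ω (T.coh (St C h β k)).H) : (T.coh (St C h β k)).H) =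
      ∑ i, (w i : Ω) • T.chern (St C h β k) (Sum.inl i) 1 := by
    rw [AddSubmonoidClass.coe_finsetSum]
    refine Finset.sum_congr rfl fun i _ => ?_
    rw [← hc, Int.cast_smul_eq_zsmul, zsmul_eq_mul]
    rfl
  rw [← e1]
  rfl

/-- the map `(M, M', x) ↦ (M', x)` -/
def fm (b1 : S_B1) (h : Fin c → MvPolynomial (Fin k × Fin n) K) (β : Fin k → Fin m) (p : Fin k) :
    Mor (Qs (C := C) h β p) (St C h β p) :=
  ⟨fa β p, (b1 C K k m n c h β p).1, (b1 C K k m n c h β p).2⟩

lemma deg_succ (b0 : S_B0) (p : Fin k) : deg β (p + 1) = deg β p + 2 * rk β p (β p) := by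
  obtain ⟨h1, h2, -, -, -⟩ := b0 k m β
  unfold deg
  rw [← Finset.add_sum_erase _ _ (Finset.mem_univ (β p)),
    ← Finset.add_sum_erase (a := β p) Finset.univ _ (Finset.mem_univ (β p)), h1]
  have e1 : ∑ i ∈ Finset.univ.erase (β p), rk β (p + 1) i * (rk β (p + 1) i - 1) =
      ∑ i ∈ Finset.univ.erase (β p), rk β p i * (rk β p i - 1) := by
    refine Finset.sum_congr rfl fun i hi => ?_
    rw [h2 p i (Finset.ne_of_mem_erase hi)]
  rw [e1]
  generalize rk β p (β p) = r
  rcases r with _ | r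
  · simp
  · simp only [Nat.add_sub_cancel]
    ring

theorem step (hT : T.Good K q) (g3 : S_G3.{u, v}) (c1 : S_C1.{u}) (c2 : S_C2.{u}) (c3 : S_C3.{u})
    (a3 : S_A3) (b0 : S_B0) (b1 : S_B1) (b2 : S_B2) (g1 : S_G1.{u, v}) (g2 : S_G2.{u, v})
    (S : Setup (C := C) K h β) (sat : Saturated C h β) {w : Fin m → ℤ} {d : ℕ} (p : Fin k)
    (hP : Pst T q h β w d (p + 1)) : Pst T q h β w d p := by
  obtain ⟨Φ, Φ2, e, he, p1, p2, p3, p4, p5⟩ := hP
  obtain ⟨r1', r2', -, -, -⟩ := b0 k m β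
  have cX := S.cS (p + 1)
  have cW := S.cS p
  have cQ := S.cQ p
  have cB := S.cB p
  set f := fm (C := C) b1 h β p with hf
  have hB : Bs (C := C) h β p ⊆ (St C h β p).pts := fun w hw => hw.1
  have cE := a3 C K n _ _ f (Bs h β p) cQ cB
  have hbij : f.BijOff (Bs h β p) := b2 C K k m n c h β p sat f rfl
  have hsurj := g2 C n Ω T K q hT k m c h β p f rfl (S.cF p) cQ (S.cF1 p) cE
  set r := rk β p (β p) with hr
  set E : (T.coh (St C h β p)).H := ((Rp r (cz hT g3 cW (Sum.inl (β p))) (cz hT g3 cW (Sum.inr p) 1) :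
    Subalgebra.center Ω (T.coh (St C h β p)).H) : (T.coh (St C h β p)).H) with hE
  have tE : Tate (T.coh (St C h β p)) q r E := tate_Rp hT g3 cW r (Sum.inl (β p)) (Sum.inr p)
  -- the class vanishes on `B`
  have inc : Rp r (cz hT g3 cB (Sum.inl (β p))) (cz hT g3 cB (Sum.inr p) 1) = 0 := by
    refine incidence hT g3 c2 cB (l := Sum.inr p) (j := Sum.inl (β p)) ?_ fun x hx => hx.2
    change strk β p (Sum.inr p) = 1
    simp [strk]
  have hcB : ∀ j i, T.map (incl (St C h β p) (Bs h β p) hB) (cz hT g3 cW j i) = cz hT g3 cB j i :=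
    fun j i => map_cz hT g3 (incl (St C h β p) (Bs h β p) hB) cB cW j i
  have hEB : T.map (incl (St C h β p) (Bs h β p) hB) E = 0 := by
    rw [hE, map_cRp (T.map (incl (St C h β p) (Bs h β p) hB)) r
      (c' := cz hT g3 cB (Sum.inl (β p))) (t' := cz hT g3 cB (Sum.inr p) 1) (fun a => hcB _ _)
      (hcB _ _), inc]
    rfl
  obtain ⟨φ, φ2, q1, q2, q3, q4, q5⟩ := g1 C n Ω T K q hT (St C h β (p + 1)) (Qs h β p)
    (St C h β p) (dn h β p) f (Bs h β p) hB E r cX cQ cW cB cE hbij hsurj tE.1 tE.2.1 tE.2.2 hEB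
  refine ⟨φ ∘ₗ Φ, φ2 ∘ₗ Φ2, e + r, ?_, ?_, ?_, ?_, ?_, ?_⟩
  · rw [← he, deg_succ b0 p]
    ring
  · intro j x hx
    have := q1 _ _ (p1 j x hx)
    rw [add_assoc, ← mul_add] at this
    exact this
  · intro x
    change (T.coh (St C h β p)).F (φ (Φ x)) = _ • φ (Φ _)
    rw [q2, p2, map_smul, smul_smul, ← pow_add, add_comm r e]
  · intro x
    change (T.coh (St C h β p)).N (φ (Φ x)) = φ (Φ _)
    rw [q3, p3]
  · intro x y
    change φ (Φ x) * φ (Φ y) = φ2 (Φ2 _)
    rw [q4, p4]
  · intro c' x' hc' hx'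
    have ec : c' = fun i => cz hT g3 cW (Sum.inl i) :=
      funext fun i => funext fun a => Subtype.ext (hc' i a)
    have ex : x' = fun i => cz hT g3 cW (Sum.inr i) 1 := funext fun i => Subtype.ext (hx' i)
    subst ec
    subst ex
    change φ2 (Φ2 _) = _
    rw [p5 (fun i => cz hT g3 cX (Sum.inl i)) (fun i => cz hT g3 cX (Sum.inr i) 1)
      (fun i a => rfl) fun i => rfl]
    -- the classes on `Qs`
    set cM : Fin m → ℕ → Subalgebra.center Ω (T.coh (Qs (C := C) h β p)).H :=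
      fun i => cz hT g3 cQ (some (some (Sum.inl i))) with hcM
    set cM' : Fin m → ℕ → Subalgebra.center Ω (T.coh (Qs (C := C) h β p)).H :=
      fun i => cz hT g3 cQ (fa β p (Sum.inl i)) with hcM'
    set xQ : Fin k → Subalgebra.center Ω (T.coh (Qs (C := C) h β p)).H :=
      fun i => cz hT g3 cQ (fa β p (Sum.inr i)) 1 with hxQ
    have hxs : xQ p = cz hT g3 cQ none 1 := by
      simp only [hxQ, fa, if_true]
      rfl
    have hcp : cM' (β p) = cz hT g3 cQ (some none) := by
      simp only [hcM', fa, if_true]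
      rfl
    have hci : ∀ i, i ≠ β p → cM' i = cM i := by
      intro i hi
      simp only [hcM', hcM, fa, if_neg hi]
      rfl
    have m1 : T.map f ((Th β w d p (fun i => cz hT g3 cW (Sum.inl i))
        (fun i => cz hT g3 cW (Sum.inr i) 1) :
        Subalgebra.center Ω (T.coh (St C h β p)).H) : (T.coh (St C h β p)).H) =
        ((Th β w d p cM' xQ : Subalgebra.center Ω (T.coh (Qs (C := C) h β p)).H) :
          (T.coh (Qs (C := C) h β p)).H) :=
      map_cTh β w (T.map f) d p (fun i a => map_cz hT g3 f cQ cW (Sum.inl i) a)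
        fun i => map_cz hT g3 f cQ cW (Sum.inr i) 1
    have m2 : T.map f E = ((Rp r (cM' (β p)) (xQ p) :
        Subalgebra.center Ω (T.coh (Qs (C := C) h β p)).H) : (T.coh (Qs (C := C) h β p)).H) :=
      map_cRp (T.map f) r (fun a => map_cz hT g3 f cQ cW (Sum.inl (β p)) a)
        (map_cz hT g3 f cQ cW (Sum.inr p) 1)
    have m3 : T.map (dn h β p) ((Th β w d (p + 1) (fun i => cz hT g3 cX (Sum.inl i))
        (fun i => cz hT g3 cX (Sum.inr i) 1) :
        Subalgebra.center Ω (T.coh (St C h β (p + 1))).H) : (T.coh (St C h β (p + 1))).H) =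
        ((Th β w d (p + 1) cM (fun i => cz hT g3 cQ (some (some (Sum.inr i))) 1) :
          Subalgebra.center Ω (T.coh (Qs (C := C) h β p)).H) : (T.coh (Qs (C := C) h β p)).H) :=
      map_cTh β w (T.map (dn h β p)) d (p + 1)
        (fun i a => map_cz hT g3 (dn h β p) cQ cX (Sum.inl i) a)
        fun i => map_cz hT g3 (dn h β p) cQ cX (Sum.inr i) 1
    have m4 : Th β w d (p + 1) cM (fun i => cz hT g3 cQ (some (some (Sum.inr i))) 1) =
        Th β w d (p + 1) cM xQ := by
      refine Th_congr fun i hi => ?_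
      simp only [hxQ]
      have : fa β p (Sum.inr i) = some (some (Sum.inr i)) := by
        simp only [fa]
        rw [if_neg]
        rintro rfl
        omega
      rw [this]
      rfl
    -- the relations
    have rp : strk β (p + 1) (Sum.inl (β p)) = r + 1 := r1' p
    obtain ⟨l, r1⟩ := corank hT g3 c3 cQ (l := some none) (j := some (some (Sum.inl (β p)))) rp
      fun z hz => hz.1.2.2
    have r2 : Rp (r + 1) (cM (β p)) (xQ p) = 0 := by
      rw [hxs]
      have := incidence hT g3 c2 cQ (l := none) (j := some (some (Sum.inl (β p)))) rfl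
        fun z hz => hz.2.2
      have e2 : (Qs (C := C) h β p).r (some (some (Sum.inl (β p)))) = r + 1 := rp
      rw [e2] at this
      exact this
    have r3 : cM' (β p) (r + 1) = 0 := by
      rw [hcp]
      exact cz_above hT g3 cQ (Nat.lt_succ_self r)
    have key := c1 _ k m d β w p cM cM' l xQ (fun i => cz_zero hT g3 cQ _)
      (fun i => cz_zero hT g3 cQ _) hci (fun a => by rw [hcp]; exact r1 a) r3 r2
    refine q5 _ _ ?_ ?_
    · rw [m1, m2, m3, m4, ← key, pow_two, ← mul_assoc]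
      rfl
    · rw [map_cTh β w (T.map (incl (St C h β p) (Bs h β p) hB)) d p
        (c' := fun i => cz hT g3 cB (Sum.inl i))
        (x' := fun i => cz hT g3 cB (Sum.inr i) 1) (fun i a => hcB _ _) (fun i => hcB _ _),
        Th_zero p inc]
      rfl

theorem all (hT : T.Good K q) (g3 : S_G3.{u, v}) (c1 : S_C1.{u}) (c2 : S_C2.{u}) (c3 : S_C3.{u})
    (a3 : S_A3) (b0 : S_B0) (b1 : S_B1) (b2 : S_B2) (g1 : S_G1.{u, v}) (g2 : S_G2.{u, v})
    (S : Setup (C := C) K h β) (sat : Saturated C h β) (w : Fin m → ℤ) (d : ℕ) :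
    Pst T q h β w d 0 := by
  have : ∀ j ≤ k, Pst T q h β w d (k - j) := by
    intro j hj
    induction j with
    | zero => exact base_case w d
    | succ j ih =>
      have e : k - j = (k - (j + 1)) + 1 := by omega
      have h1 := ih (by omega)
      rw [e] at h1
      exact step hT g3 c1 c2 c3 a3 b0 b1 b2 g1 g2 S sat ⟨k - (j + 1), by omega⟩ h1
  have h1 := this k le_rfl
  rwa [Nat.sub_self] at h1

end Pool.Agent.H88.VH
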