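import Pool.Agent.H88.VH.Coh
import Pool.Agent.H88.VG.Tilt

/-!
# From tubular neighbourhoods and cycles to the property used in the proof
-/

set_option autoImplicit false

open MvPolynomial Pool.Agent.Y129.TA Pool.Agent.Y129.TB Pool.Agent.H88.VL
open Pool.Agent.H88.VG (MultiHom inter Theory zeros value)

universe u v

namespace Pool.Agent.H88.VH

variable {C F : Type} [Field C] [Field F] {n : ℕ} {Ω : Type v} [Field Ω]

theorem inter_mul {k c : ℕ} (n : ℕ) (m : Fin c → ℕ) (a : Fin c → Fin k → ℕ)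
    (P : MvPolynomial (Fin k) ℤ) :
    inter n (fun j i => m j * a j i) P = (∏ j, (m j : ℤ)) * inter n a P := by
  unfold inter
  have h1 : ∀ j, (∑ i, MvPolynomial.C ((m j * a j i : ℕ) : ℤ) * X i : MvPolynomial (Fin k) ℤ) =
      MvPolynomial.C (m j : ℤ) * ∑ i, MvPolynomial.C (a j i : ℤ) * X i := by
    intro j
    rw [Finset.mul_sum]
    refine Finset.sum_congr rfl fun i _ => ?_
    rw [Nat.cast_mul, map_mul, mul_assoc]
  rw [Finset.prod_congr rfl fun j _ => h1 j, Finset.prod_mul_distrib, ← map_prod, mul_left_comm,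
    coeff_C_mul]

/-- The property used in the proof. -/
theorem Ladic.old {p : ℕ} [Fact p.Prime] [CharZero Ω] {𝓣 : Tilting p C F} {K E : Type} [Field K]
    [Field E] [Algebra K C] [Algebra E F] {q : ℕ} {T : Theory.{u, v} C n Ω}
    {T' : Theory.{u, v} F n Ω} (h : Ladic 𝓣 K E q T T') : T.Ladic K q 𝓣 E where
  toFunctorial := h.toFunctorial
  toChern := h.toChern
  toDescent := h.toDescent
  bundles := h.bundles
  tilting := by
    intro k c f a D hn hf hD hap
    obtain ⟨ε, hε, htube⟩ := h.tubes f a hf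
    obtain ⟨M, g, hg, hgt⟩ := hap ε hε
    obtain ⟨s₀, hs₀⟩ := htube g _ hg hgt
    obtain ⟨A, s, t, hA, hMW, ht⟩ := h.cycles g _ D hn hg hD
    refine ⟨A, ⟨s.s.comp s₀.s, fun i x hx => s.mem i _ (s₀.mem i x hx), fun x => ?_, fun x => ?_⟩, t,
      ((∏ j, (p ^ M j : ℕ) : ℕ) : Ω), hA, hMW, ?_, fun e he => ?_⟩
    · change s.s (s₀.s _) = A.frob (s.s (s₀.s x))
      rw [s₀.map_F, s.map_F]
    · change s.s (s₀.s _) = A.mono (s.s (s₀.s x))
      rw [s₀.map_N, s.map_N]
    · rw [Nat.cast_ne_zero]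
      exact Finset.prod_ne_zero_iff.2 fun j _ => pow_ne_zero _ (Fact.out : p.Prime).ne_zero
    · have h1 : s₀.s (List.ofFn fun i : Fin k => T.chern (zeros C f) i 1 ^ e i).prod =
          (List.ofFn fun i : Fin k => T'.chern (zeros F g) i 1 ^ e i).prod := by
        rw [map_list_prod, List.map_ofFn]
        congr 1
        congr 1
        funext i
        exact (map_pow s₀.s _ _).trans (congrArg (fun z => z ^ e i) (hs₀ i))
      have h2 := ht e he
      rw [inter_mul] at h2
      change t.t (s.s (s₀.s _)) = _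
      rw [h1, h2]
      push_cast
      ring

end Pool.Agent.H88.VH
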